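import Mathlib

/-! # Parabolic sets in finite symplectic groups: definitions and the basic identities

`P` is a finite abelian group of order `n ^ 2` with a nondegenerate alternating pairing `w` with
values in `ℂ`, `T` a finite set of elements of `P`, `D w T k = ∑_{h ∈ T} w h k`. A parabolic set
(`Para`) is what is left, at a place at infinity, of a curve of fiducial vectors. -/

set_option autoImplicit false

namespace Pool.Agent.SicPara

open Finset

variable {P : Type*} [AddCommGroup P] [Fintype P] [DecidableEq P]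

/-- A finite symplectic group of order `n ^ 2`. -/
structure Symp (n : ℕ) (w : P → P → ℂ) : Prop where
  add_left : ∀ g g' h, w (g + g') h = w g h * w g' h
  add_right : ∀ g h h', w g (h + h') = w g h * w g h'
  swap : ∀ g h, w g h * w h g = 1
  nondeg : ∀ g, g ≠ 0 → ∃ h, w g h ≠ 1
  card : Fintype.card P = n ^ 2
  tors : ∀ g : P, n • g = 0

/-- `D w T k = ∑_{h ∈ T} w h k`. -/
def D (w : P → P → ℂ) (T : Finset P) (k : P) : ℂ := ∑ h ∈ T, w h k

/-- Parabolic sets. -/
structure Para (n : ℕ) (w : P → P → ℂ) (T : Finset P) : Prop where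
  disj : ∀ h ∈ T, -h ∉ T
  card : 4 * T.card = n * (n + 1)
  van : ∀ k ∈ T, D w T k = 0
  par : ∀ k, k ∉ T → -k ∉ T → k ≠ 0 →
    ((n : ℂ) - D w T k - D w T (-k)) ^ 2 = 4 * D w T k * D w T (-k)

namespace Symp

variable {n : ℕ} {w : P → P → ℂ}

theorem ne_zero (hw : Symp n w) (g h : P) : w g h ≠ 0 := by
  intro h0
  have := hw.swap g h
  rw [h0, zero_mul] at this
  exact zero_ne_one this

theorem zero_left (hw : Symp n w) (h : P) : w 0 h = 1 := by
  have h1 := hw.add_left 0 0 h
  rw [add_zero] at h1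
  have h2 := hw.ne_zero 0 h
  have h3 : w 0 h * 1 = w 0 h * w 0 h := by rw [mul_one]; exact h1
  exact (mul_left_cancel₀ h2 h3).symm

theorem zero_right (hw : Symp n w) (g : P) : w g 0 = 1 := by
  have h1 := hw.add_right g 0 0
  rw [add_zero] at h1
  have h2 := hw.ne_zero g 0
  have h3 : w g 0 * 1 = w g 0 * w g 0 := by rw [mul_one]; exact h1
  exact (mul_left_cancel₀ h2 h3).symm

theorem neg_right (hw : Symp n w) (g h : P) : w g (-h) = (w g h)⁻¹ := by
  have h1 := hw.add_right g h (-h)
  rw [add_neg_cancel, hw.zero_right] at h1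
  exact (eq_inv_of_mul_eq_one_right h1.symm)

theorem neg_left (hw : Symp n w) (g h : P) : w (-g) h = (w g h)⁻¹ := by
  have h1 := hw.add_left g (-g) h
  rw [add_neg_cancel, hw.zero_left] at h1
  exact (eq_inv_of_mul_eq_one_right h1.symm)

theorem neg_neg' (hw : Symp n w) (g h : P) : w (-g) (-h) = w g h := by
  rw [hw.neg_left, hw.neg_right, inv_inv]

theorem swap' (hw : Symp n w) (g h : P) : w h g = (w g h)⁻¹ :=
  eq_inv_of_mul_eq_one_right (hw.swap g h)

theorem nsmul_right (hw : Symp n w) (g h : P) (m : ℕ) : w g (m • h) = w g h ^ m := by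
  induction m with
  | zero => rw [zero_nsmul, pow_zero, hw.zero_right]
  | succ m ih => rw [succ_nsmul, pow_succ, hw.add_right, ih]

theorem nsmul_left (hw : Symp n w) (g h : P) (m : ℕ) : w (m • g) h = w g h ^ m := by
  induction m with
  | zero => rw [zero_nsmul, pow_zero, hw.zero_left]
  | succ m ih => rw [succ_nsmul, pow_succ, hw.add_left, ih]

theorem pow_n (hw : Symp n w) (g h : P) : w g h ^ n = 1 := by
  rw [← hw.nsmul_right, hw.tors, hw.zero_right]

theorem pos (hw : Symp n w) : 0 < n := by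
  rcases Nat.eq_zero_or_pos n with h | h
  · have h1 := hw.card
    rw [h] at h1
    have h2 : 0 < Fintype.card P := Fintype.card_pos_iff.mpr ⟨0⟩
    simp at h1
  · exact h

theorem norm_eq (hw : Symp n w) (g h : P) : ‖w g h‖ = 1 :=
  Complex.norm_eq_one_of_pow_eq_one (hw.pow_n g h) hw.pos.ne'

theorem conj_eq (hw : Symp n w) (g h : P) : (starRingEnd ℂ) (w g h) = (w g h)⁻¹ := by
  rw [Complex.inv_def, Complex.normSq_eq_norm_sq, hw.norm_eq]
  simp

theorem conj_right (hw : Symp n w) (g h : P) : (starRingEnd ℂ) (w g h) = w g (-h) := by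
  rw [hw.conj_eq, hw.neg_right]

/-- Orthogonality on a subgroup. -/
theorem sum_subgroup (hw : Symp n w) (K : AddSubgroup P) [DecidablePred (· ∈ K)] (h : P) :
    ∑ k ∈ univ.filter (· ∈ K), w h k =
      if (∀ k ∈ K, w h k = 1) then ((univ.filter (· ∈ K)).card : ℂ) else 0 := by
  classical
  split_ifs with h1
  · rw [Finset.sum_congr rfl (g := fun _ => (1 : ℂ))]
    · simp
    · intro k hk
      exact h1 k (Finset.mem_filter.mp hk).2
  · push Not at h1
    obtain ⟨k0, hk0, hk1⟩ := h1
    have h2 : ∑ k ∈ univ.filter (· ∈ K), w h (k + k0) = ∑ k ∈ univ.filter (· ∈ K), w h k := by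
      refine Finset.sum_bij (fun k _ => k + k0) ?_ ?_ ?_ ?_
      · intro k hk
        rw [Finset.mem_filter] at hk ⊢
        exact ⟨Finset.mem_univ _, K.add_mem hk.2 hk0⟩
      · intro a _ b _ hab
        exact add_right_cancel hab
      · intro b hb
        rw [Finset.mem_filter] at hb
        refine ⟨b - k0, ?_, by simp⟩
        rw [Finset.mem_filter]
        exact ⟨Finset.mem_univ _, K.sub_mem hb.2 hk0⟩
      · intro k _
        rfl
    have h3 : (w h k0) * ∑ k ∈ univ.filter (· ∈ K), w h k = ∑ k ∈ univ.filter (· ∈ K), w h k := by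
      rw [← h2, h2, Finset.mul_sum, ← h2]
      refine Finset.sum_congr rfl fun k _ => ?_
      rw [hw.add_right, mul_comm]
    have h4 : (w h k0 - 1) * ∑ k ∈ univ.filter (· ∈ K), w h k = 0 := by
      rw [sub_mul, one_mul, h3, sub_self]
    rcases mul_eq_zero.mp h4 with h5 | h5
    · exact absurd (sub_eq_zero.mp h5) hk1
    · exact h5

theorem sum_right (hw : Symp n w) (h : P) : ∑ k, w h k = if h = 0 then (n : ℂ) ^ 2 else 0 := by
  classical
  have h1 := hw.sum_subgroup ⊤ h
  simp only [AddSubgroup.mem_top, Finset.filter_true, forall_const] at h1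
  rw [h1]
  by_cases h2 : h = 0
  · subst h2
    rw [if_pos (fun k => hw.zero_left k), if_pos rfl, Finset.card_univ, hw.card]
    push_cast
    rfl
  · rw [if_neg h2, if_neg]
    intro h3
    obtain ⟨k, hk⟩ := hw.nondeg h h2
    exact hk (h3 k)

theorem sum_left (hw : Symp n w) (k : P) : ∑ h, w h k = if k = 0 then (n : ℂ) ^ 2 else 0 := by
  have h1 : ∑ h, w h k = ∑ h, w k (-h) :=
    Finset.sum_congr rfl fun h _ => by rw [hw.neg_right, hw.swap' k h]
  have h2 : ∑ h, w k (-h) = ∑ h, w k h := Fintype.sum_equiv (Equiv.neg P) _ _ fun h => rfl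
  rw [h1, h2, hw.sum_right]

theorem D_zero (hw : Symp n w) (T : Finset P) : D w T 0 = T.card := by
  unfold D
  rw [Finset.sum_congr rfl (g := fun _ => (1 : ℂ)) (fun h _ => hw.zero_right h)]
  simp

theorem D_neg (hw : Symp n w) (T : Finset P) (k : P) :
    D w T (-k) = (starRingEnd ℂ) (D w T k) := by
  unfold D
  rw [map_sum]
  exact Finset.sum_congr rfl fun h _ => (hw.conj_right h k).symm

theorem parseval (hw : Symp n w) (T : Finset P) :
    ∑ k, D w T k * D w T (-k) = (n : ℂ) ^ 2 * T.card := by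
  classical
  have h1 : ∀ k, D w T k * D w T (-k) = ∑ g ∈ T, ∑ h ∈ T, w (g - h) k := by
    intro k
    unfold D
    rw [Finset.sum_mul_sum]
    refine Finset.sum_congr rfl fun g _ => Finset.sum_congr rfl fun h _ => ?_
    rw [sub_eq_add_neg, hw.add_left, hw.neg_left, hw.neg_right]
  rw [Finset.sum_congr rfl (fun k _ => h1 k), Finset.sum_comm]
  have h2 : ∀ g ∈ T, ∑ k, ∑ h ∈ T, w (g - h) k = (n : ℂ) ^ 2 := by
    intro g hg
    rw [Finset.sum_comm, Finset.sum_congr rfl (fun h _ => hw.sum_right (g - h))]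
    simp only [sub_eq_zero]
    rw [Finset.sum_ite_eq T g]
    rw [if_pos hg]
  rw [Finset.sum_congr rfl h2]
  simp [mul_comm]

end Symp

namespace Para

variable {n : ℕ} {w : P → P → ℂ} {T : Finset P}

/-- The support of `D`. -/
def S (T : Finset P) : Finset P := univ.filter fun k => k ∉ T ∧ -k ∉ T

theorem mem_S {k : P} : k ∈ S T ↔ k ∉ T ∧ -k ∉ T := by simp [S]

theorem neg_mem_S {k : P} : -k ∈ S T ↔ k ∈ S T := by
  rw [mem_S, mem_S, neg_neg, and_comm]

theorem zero_mem_S (hT : Para n w T) : (0 : P) ∈ S T := by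
  rw [mem_S, neg_zero, and_self]
  intro h
  have := hT.disj 0 h
  rw [neg_zero] at this
  exact this h

theorem sum_S (hT : Para n w T) (f : P → ℂ) :
    ∑ h ∈ S T, f h = ∑ h, f h - ∑ h ∈ T, f h - ∑ h ∈ T, f (-h) := by
  classical
  have h1 : ∑ h ∈ T, f (-h) = ∑ h ∈ T.image (fun h => -h), f h := by
    rw [Finset.sum_image]
    intro a _ b _ hab
    exact neg_injective hab
  have h2 : Disjoint T (T.image fun h => -h) := by
    rw [Finset.disjoint_left]
    intro a ha hb
    rw [Finset.mem_image] at hb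
    obtain ⟨b, hb, rfl⟩ := hb
    exact hT.disj b hb ha
  have h3 : S T = univ \ (T ∪ T.image fun h => -h) := by
    ext k
    rw [mem_S, Finset.mem_sdiff, Finset.mem_union, Finset.mem_image]
    constructor
    · rintro ⟨ha, hb⟩
      refine ⟨Finset.mem_univ _, ?_⟩
      rintro (h | ⟨b, hb', rfl⟩)
      · exact ha h
      · rw [neg_neg] at hb
        exact hb hb'
    · rintro ⟨-, h⟩
      push Not at h
      exact ⟨h.1, fun h' => h.2 (-k) h' (neg_neg k)⟩
  have h4 : ∑ h ∈ S T, f h + ∑ h ∈ T ∪ T.image (fun h => -h), f h = ∑ h, f h := by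
    rw [h3]
    exact Finset.sum_sdiff (Finset.subset_univ _)
  rw [h1, ← h4, Finset.sum_union h2]
  ring

theorem sum_S_w (hw : Symp n w) (hT : Para n w T) (k : P) :
    ∑ h ∈ S T, w h k = (if k = 0 then (n : ℂ) ^ 2 else 0) - D w T k - D w T (-k) := by
  rw [hT.sum_S, hw.sum_left]
  congr 1
  unfold D
  exact Finset.sum_congr rfl fun h _ => by rw [hw.neg_left, hw.neg_right]

theorem card_T (hT : Para n w T) : (4 : ℂ) * T.card = n * (n + 1) := by
  have := hT.card
  exact_mod_cast this

theorem D_ne_zero (hw : Symp n w) (hT : Para n w T) {k : P} (hk : k ∈ S T) : D w T k ≠ 0 := by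
  intro h0
  have hn : (n : ℂ) ≠ 0 := by exact_mod_cast hw.pos.ne'
  by_cases h1 : k = 0
  · subst h1
    rw [hw.D_zero] at h0
    have h2 := hT.card_T
    rw [h0, mul_zero] at h2
    have h3 : (n : ℂ) + 1 ≠ 0 := by exact_mod_cast Nat.succ_ne_zero n
    exact (mul_ne_zero hn h3) h2.symm
  · have h2 := hT.par k (mem_S.mp hk).1 (mem_S.mp hk).2 h1
    rw [hw.D_neg, h0] at h2
    simp at h2
    exact hw.pos.ne' h2

theorem D_eq_zero (hw : Symp n w) (hT : Para n w T) {k : P} (hk : k ∉ S T) : D w T k = 0 := by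
  rw [mem_S] at hk
  by_cases h1 : k ∈ T
  · exact hT.van k h1
  · have h2 : -k ∈ T := by
      by_contra h3
      exact hk ⟨h1, h3⟩
    have h3 := hT.van _ h2
    rw [hw.D_neg] at h3
    exact (map_eq_zero _).mp h3

theorem D_eq_zero_iff (hw : Symp n w) (hT : Para n w T) (k : P) : D w T k = 0 ↔ k ∉ S T :=
  ⟨fun h hk => D_ne_zero hw hT hk h, fun h => D_eq_zero hw hT h⟩

/-- The basic formula: `2 |D k| = n 1_S(k) + ∑_{h ∈ S} w h k`. -/
theorem two_norm (hw : Symp n w) (hT : Para n w T) (k : P) :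
    (2 : ℂ) * (‖D w T k‖ : ℂ) = (if k ∈ S T then (n : ℂ) else 0) + ∑ h ∈ S T, w h k := by
  rw [sum_S_w hw hT]
  by_cases hk : k ∈ S T
  · rw [if_pos hk]
    by_cases h0 : k = 0
    · subst h0
      rw [if_pos rfl, neg_zero, hw.D_zero]
      have h1 := hT.card_T
      rw [Complex.norm_natCast]
      push_cast
      linear_combination h1
    · rw [if_neg h0]
      have h2 := hT.par k (mem_S.mp hk).1 (mem_S.mp hk).2 h0
      rw [hw.D_neg] at h2 ⊢
      set z := D w T k with hz
      have h3 : (n : ℂ) - z - (starRingEnd ℂ) z = ((n - 2 * z.re : ℝ) : ℂ) := by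
        apply Complex.ext
        · simp
          ring
        · simp
      have h4 : z * (starRingEnd ℂ) z = ((‖z‖ ^ 2 : ℝ) : ℂ) := by
        rw [Complex.mul_conj, Complex.normSq_eq_norm_sq]
      have h5 : ((n : ℝ) - 2 * z.re) ^ 2 = 4 * ‖z‖ ^ 2 := by
        rw [h3, mul_assoc, h4] at h2
        exact_mod_cast h2
      have h6 : (0 : ℝ) ≤ n - 2 * z.re := by
        by_contra hcon
        push Not at hcon
        have h7 : ‖z‖ ^ 2 = z.re ^ 2 + z.im ^ 2 := by
          rw [← Complex.normSq_eq_norm_sq, Complex.normSq_apply]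
          ring
        have h8 : (0 : ℝ) < n := by exact_mod_cast hw.pos
        nlinarith [sq_nonneg z.im]
      have h7 : (n : ℝ) - 2 * z.re = 2 * ‖z‖ := by
        have h8 : ((n : ℝ) - 2 * z.re) ^ 2 = (2 * ‖z‖) ^ 2 := by rw [h5]; ring
        exact (sq_eq_sq₀ h6 (by positivity)).mp h8
      have h9 : (n : ℂ) + (0 - z - (starRingEnd ℂ) z) = (n : ℂ) - z - (starRingEnd ℂ) z := by ring
      rw [h9, h3, h7]
      push_cast
      ring
  · have h0 : k ≠ 0 := by
      rintro rfl
      exact hk hT.zero_mem_S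
    rw [if_neg hk, if_neg h0, D_eq_zero hw hT hk, D_eq_zero hw hT (k := -k)
      (by rwa [neg_mem_S])]
    simp

theorem two_re (hw : Symp n w) (hT : Para n w T) {k : P} (hk : k ∈ S T) (h0 : k ≠ 0) :
    2 * ‖D w T k‖ = n - 2 * (D w T k).re := by
  have h1 := two_norm hw hT k
  rw [if_pos hk, sum_S_w hw hT, if_neg h0, hw.D_neg] at h1
  have h2 := congrArg Complex.re h1
  simp at h2
  linarith

/-- Poisson summation over a subgroup. -/
theorem poisson (hw : Symp n w) (hT : Para n w T) (K : AddSubgroup P) [DecidablePred (· ∈ K)] :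
    2 * ∑ k ∈ univ.filter (· ∈ K), ‖D w T k‖ =
      n * ((S T).filter (· ∈ K)).card +
        (univ.filter (· ∈ K)).card * ((S T).filter fun h => ∀ k ∈ K, w h k = 1).card := by
  classical
  have h1 : (2 : ℂ) * ∑ k ∈ univ.filter (· ∈ K), (‖D w T k‖ : ℂ) =
      n * ((S T).filter (· ∈ K)).card +
        (univ.filter (· ∈ K)).card * ((S T).filter fun h => ∀ k ∈ K, w h k = 1).card := by
    rw [Finset.mul_sum, Finset.sum_congr rfl (fun k _ => two_norm hw hT k),
      Finset.sum_add_distrib]
    congr 1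
    · rw [← Finset.sum_filter, Finset.sum_const, nsmul_eq_mul, mul_comm]
      congr 3
      ext k
      simp [and_comm]
    · rw [Finset.sum_comm, Finset.sum_congr rfl (fun h _ => hw.sum_subgroup K h),
        ← Finset.sum_filter, Finset.sum_const, nsmul_eq_mul, mul_comm]
  exact_mod_cast h1

end Para

end Pool.Agent.SicPara
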