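import Mathlib
import Pool.Agent.Lib.MP_d0f9e0_co.S1.Para

/-! # Parabolic sets: the numbers `|D k|` are integers -/

set_option autoImplicit false
set_option linter.unusedSectionVars false

namespace Pool.Agent.SicPara

open Finset Polynomial

/-- An integral polynomial vanishing at a primitive root of unity vanishes at its conjugates. -/
theorem aeval_pow_eq_zero {N : ℕ} {z : ℂ} (hz : IsPrimitiveRoot z N) (hN : 0 < N) (Q : ℤ[X])
    (hQ : aeval z Q = 0) {u : ℕ} (hu : Nat.Coprime u N) : aeval (z ^ u) Q = 0 := by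
  have h1 : minpoly ℤ z ∣ Q :=
    minpoly.isIntegrallyClosed_dvd (hz.isIntegral hN) hQ
  rw [hz.minpoly_eq_pow_coprime hu] at h1
  obtain ⟨R, rfl⟩ := h1
  rw [map_mul, minpoly.aeval, zero_mul]

/-- An integral expression in a primitive root of unity with only one conjugate is an integer. -/
theorem exists_int_of_fixed {N : ℕ} {z : ℂ} (hz : IsPrimitiveRoot z N) (hN : 0 < N) (Q : ℤ[X])
    (hQ : ∀ u : ℕ, Nat.Coprime u N → aeval (z ^ u) Q = aeval z Q) :
    ∃ m : ℤ, aeval z Q = (m : ℂ) := by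
  set c := cyclotomic N ℤ with hc
  have hmon : c.Monic := cyclotomic.monic N ℤ
  set r := Q %ₘ c with hr
  have hroot : ∀ x : ℂ, IsPrimitiveRoot x N → aeval x c = 0 := by
    intro x hx
    rw [hc, aeval_def, eval₂_eq_eval_map, map_cyclotomic]
    exact hx.isRoot_cyclotomic hN
  have hval : ∀ x : ℂ, IsPrimitiveRoot x N → aeval x r = aeval x Q := by
    intro x hx
    have h1 : r + c * (Q /ₘ c) = Q := modByMonic_add_div Q c
    conv_rhs => rw [← h1]
    rw [map_add, map_mul, hroot x hx, zero_mul, add_zero]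
  have h2 : ∀ x : ℂ, IsPrimitiveRoot x N → aeval x r = aeval z Q := by
    intro x hx
    rw [hval x hx]
    have : NeZero N := ⟨hN.ne'⟩
    obtain ⟨u, -, hu, rfl⟩ := hz.isPrimitiveRoot_iff.mp hx
    exact hQ u hu
  have h3 : r.map (algebraMap ℤ ℂ) - C (aeval z Q) = 0 := by
    refine eq_zero_of_natDegree_lt_card_of_eval_eq_zero' _ (primitiveRoots N ℂ) ?_ ?_
    · intro x hx
      rw [mem_primitiveRoots hN] at hx
      have h4 := h2 x hx
      rw [aeval_def, eval₂_eq_eval_map] at h4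
      rw [eval_sub, eval_C, h4, sub_self]
    · rw [hz.card_primitiveRoots]
      have h5 : r.natDegree < N.totient := by
        have h6 : c.natDegree = N.totient := natDegree_cyclotomic N ℤ
        rw [← h6]
        apply natDegree_modByMonic_lt _ hmon
        intro h7
        have h8 : c.natDegree = 0 := by rw [h7, natDegree_one]
        rw [h6] at h8
        exact (Nat.totient_pos.mpr hN).ne' h8
      have h6 : (r.map (algebraMap ℤ ℂ) - C (aeval z Q)).natDegree ≤
          max (r.map (algebraMap ℤ ℂ)).natDegree (C (aeval z Q) : ℂ[X]).natDegree :=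
        natDegree_sub_le _ _
      have h7 : (r.map (algebraMap ℤ ℂ)).natDegree ≤ r.natDegree := natDegree_map_le
      have h8 : (C (aeval z Q) : ℂ[X]).natDegree = 0 := natDegree_C _
      rw [h8] at h6
      exact lt_of_le_of_lt h6 (by
        rw [max_lt_iff]
        exact ⟨lt_of_le_of_lt h7 h5, lt_of_le_of_lt (Nat.zero_le _) h5⟩)
  refine ⟨r.coeff 0, ?_⟩
  have h4 := congrArg (fun f => coeff f 0) h3
  simp only [coeff_sub, coeff_map, coeff_C_zero, coeff_zero] at h4
  rw [sub_eq_zero] at h4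
  rw [← h4]
  rfl

variable {P : Type*} [AddCommGroup P] [Fintype P] [DecidableEq P]

namespace Symp

variable {n : ℕ} {w : P → P → ℂ}

theorem exists_exp (hw : Symp n w) {z : ℂ} (hz : IsPrimitiveRoot z n) (h k : P) :
    ∃ j : ℕ, w h k = z ^ j := by
  have : NeZero n := ⟨hw.pos.ne'⟩
  obtain ⟨j, -, hj⟩ := hz.eq_pow_of_pow_eq_one (hw.pow_n h k)
  exact ⟨j, hj.symm⟩

/-- `D` as the value of an integral polynomial at a primitive `n`-th root of unity. -/
theorem exists_poly (hw : Symp n w) {z : ℂ} (hz : IsPrimitiveRoot z n) (A : Finset P) (k : P) :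
    ∃ Q : ℤ[X], ∀ u : ℕ, aeval (z ^ u) Q = ∑ h ∈ A, w h (u • k) := by
  choose j hj using fun h => hw.exists_exp hz h k
  refine ⟨∑ h ∈ A, X ^ j h, fun u => ?_⟩
  rw [map_sum]
  refine Finset.sum_congr rfl fun h _ => ?_
  rw [hw.nsmul_right, hj, map_pow, aeval_X, ← pow_mul, ← pow_mul, mul_comm]

end Symp

namespace Para

variable {n : ℕ} {w : P → P → ℂ} {T : Finset P}

/-- Galois conjugation. -/
theorem sum_eq_of_eq (hw : Symp n w) (A B : Finset P) (k l : P) {u : ℕ} (hu : Nat.Coprime u n)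
    (h : ∑ h ∈ A, w h k = ∑ h ∈ B, w h l) :
    ∑ h ∈ A, w h (u • k) = ∑ h ∈ B, w h (u • l) := by
  have hz := Complex.isPrimitiveRoot_exp n hw.pos.ne'
  obtain ⟨Q, hQ⟩ := hw.exists_poly hz A k
  obtain ⟨R, hR⟩ := hw.exists_poly hz B l
  have h1 : aeval (Complex.exp (2 * Real.pi * Complex.I / n)) (Q - R) = 0 := by
    have h2 := hQ 1
    have h3 := hR 1
    rw [pow_one, one_smul] at h2 h3
    rw [map_sub, h2, h3, h, sub_self]
  have h2 := aeval_pow_eq_zero hz hw.pos (Q - R) h1 hu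
  rw [map_sub, hQ, hR, sub_eq_zero] at h2
  exact h2

theorem D_eq_of_eq (hw : Symp n w) (k l : P) {u : ℕ} (hu : Nat.Coprime u n)
    (h : D w T k = D w T l) : D w T (u • k) = D w T (u • l) :=
  sum_eq_of_eq hw T T k l hu h

theorem D_smul_eq_zero (hw : Symp n w) (k : P) {u : ℕ} (hu : Nat.Coprime u n)
    (h : D w T k = 0) : D w T (u • k) = 0 := by
  have h1 : ∑ h ∈ T, w h k = ∑ h ∈ (∅ : Finset P), w h k := by
    rw [Finset.sum_empty]
    exact h
  have := sum_eq_of_eq hw T ∅ k k hu h1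
  rw [Finset.sum_empty] at this
  exact this

theorem smul_congr (hw : Symp n w) {a b : ℕ} (h : a ≡ b [MOD n]) (k : P) : a • k = b • k := by
  have h1 : ∀ c : ℕ, c • k = (c % n) • k := by
    intro c
    conv_lhs => rw [← Nat.div_add_mod c n, add_smul, mul_comm, mul_smul, hw.tors, smul_zero,
      zero_add]
  rw [h1 a, h1 b]
  rw [Nat.ModEq] at h
  rw [h]

/-- The units act on `P`. -/
theorem exists_inv (hw : Symp n w) {u : ℕ} (hu : Nat.Coprime u n) :
    ∃ v : ℕ, Nat.Coprime v n ∧ ∀ k : P, v • u • k = k := by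
  refine ⟨u ^ (n.totient - 1), Nat.Coprime.pow_left _ hu, fun k => ?_⟩
  rw [smul_smul, ← pow_succ, Nat.sub_add_cancel (Nat.totient_pos.mpr hw.pos)]
  have h1 := smul_congr hw (Nat.ModEq.pow_totient hu) k
  rw [h1, one_smul]

theorem smul_mem_S (hw : Symp n w) (hT : Para n w T) {u : ℕ} (hu : Nat.Coprime u n) (k : P) :
    u • k ∈ S T ↔ k ∈ S T := by
  have h1 : ∀ (u : ℕ), Nat.Coprime u n → ∀ k, u • k ∈ S T → k ∈ S T := by
    intro u hu k hk
    by_contra h2
    rw [← D_eq_zero_iff hw hT] at h2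
    exact D_ne_zero hw hT hk (D_smul_eq_zero hw k hu h2)
  refine ⟨h1 u hu k, fun hk => ?_⟩
  obtain ⟨v, hv, hvu⟩ := exists_inv hw hu
  apply h1 v hv
  rwa [hvu]

theorem sum_S_smul (hw : Symp n w) (hT : Para n w T) {u : ℕ} (hu : Nat.Coprime u n) (k : P) :
    ∑ h ∈ S T, w h (u • k) = ∑ h ∈ S T, w h k := by
  obtain ⟨v, hv, hvu⟩ := exists_inv hw hu
  refine Finset.sum_bij (fun h _ => u • h) ?_ ?_ ?_ ?_
  · intro h hh
    exact (smul_mem_S hw hT hu h).mpr hh
  · intro a _ b _ hab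
    have := congrArg (fun x => v • x) hab
    simpa only [hvu] using this
  · intro b hb
    refine ⟨v • b, (smul_mem_S hw hT hv b).mpr hb, ?_⟩
    rw [smul_smul, mul_comm, ← smul_smul, hvu]
  · intro h _
    rw [hw.nsmul_left, hw.nsmul_right]

theorem exists_int_sum_S (hw : Symp n w) (hT : Para n w T) (k : P) :
    ∃ m : ℤ, ∑ h ∈ S T, w h k = (m : ℂ) := by
  have hz := Complex.isPrimitiveRoot_exp n hw.pos.ne'
  obtain ⟨Q, hQ⟩ := hw.exists_poly hz (S T) k
  have h1 := hQ 1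
  rw [pow_one, one_smul] at h1
  obtain ⟨m, hm⟩ := exists_int_of_fixed hz hw.pos Q fun u hu => by
    rw [hQ, h1, sum_S_smul hw hT hu]
  exact ⟨m, by rw [← h1, hm]⟩

theorem isIntegral_w (hw : Symp n w) (h k : P) : IsIntegral ℤ (w h k) :=
  ⟨X ^ n - 1, monic_X_pow_sub_C 1 hw.pos.ne', by simp [hw.pow_n h k]⟩

theorem isIntegral_D (hw : Symp n w) (k : P) : IsIntegral ℤ (D w T k) :=
  IsIntegral.sum _ fun h _ => isIntegral_w hw h k

/-- The norms `|D k|` are natural numbers. -/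
theorem exists_nat_norm (hw : Symp n w) (hT : Para n w T) (k : P) :
    ∃ a : ℕ, ‖D w T k‖ = a := by
  obtain ⟨m, hm⟩ := exists_int_sum_S hw hT k
  have h1 := two_norm hw hT k
  rw [hm] at h1
  obtain ⟨q, hq⟩ : ∃ q : ℤ, (2 : ℂ) * (‖D w T k‖ : ℂ) = q := by
    by_cases hk : k ∈ S T
    · rw [if_pos hk] at h1
      exact ⟨n + m, by rw [h1]; push_cast; rfl⟩
    · rw [if_neg hk] at h1
      exact ⟨m, by rw [h1, zero_add]⟩
  have h2 : IsIntegral ℤ ((‖D w T k‖ : ℂ)) := by
    have h3 : IsIntegral ℤ ((‖D w T k‖ : ℂ) ^ 2) := by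
      have h4 : ((‖D w T k‖ : ℂ)) ^ 2 = D w T k * D w T (-k) := by
        rw [hw.D_neg, Complex.mul_conj, Complex.normSq_eq_norm_sq]
        push_cast
        rfl
      rw [h4]
      exact (isIntegral_D hw k).mul (isIntegral_D hw (-k))
    exact IsIntegral.of_pow (by norm_num) h3
  have h3 : (‖D w T k‖ : ℂ) = algebraMap ℚ ℂ ((q : ℚ) / 2) := by
    rw [map_div₀]
    simp only [map_intCast, map_ofNat]
    rw [← hq]
    ring
  rw [h3] at h2
  have h4 : IsIntegral ℤ ((q : ℚ) / 2) :=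
    (isIntegral_algebraMap_iff (algebraMap ℚ ℂ).injective).mp h2
  obtain ⟨b, hb⟩ := IsIntegrallyClosed.isIntegral_iff.mp h4
  have h5 : (‖D w T k‖ : ℂ) = (b : ℂ) := by
    rw [h3, ← hb]
    simp
  have h6 : ‖D w T k‖ = (b : ℝ) := by exact_mod_cast h5
  have h7 : 0 ≤ b := by
    have : (0 : ℝ) ≤ b := by rw [← h6]; positivity
    exact_mod_cast this
  obtain ⟨a, rfl⟩ := Int.eq_ofNat_of_zero_le h7
  exact ⟨a, by rw [h6]; simp⟩

/-- The natural number `|D k|`. -/
noncomputable def a (w : P → P → ℂ) (T : Finset P) (k : P) : ℕ := ⌊‖D w T k‖⌋₊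

theorem norm_eq_a (hw : Symp n w) (hT : Para n w T) (k : P) : ‖D w T k‖ = a w T k := by
  obtain ⟨b, hb⟩ := exists_nat_norm hw hT k
  unfold a
  rw [hb, Nat.floor_natCast]

theorem a_zero (hw : Symp n w) : a w T 0 = T.card := by
  unfold a
  rw [hw.D_zero, Complex.norm_natCast, Nat.floor_natCast]

theorem a_neg (hw : Symp n w) (k : P) : a w T (-k) = a w T k := by
  unfold a
  rw [hw.D_neg, Complex.norm_conj]

theorem a_smul (hw : Symp n w) (hT : Para n w T) {u : ℕ} (hu : Nat.Coprime u n) (k : P) :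
    a w T (u • k) = a w T k := by
  have h1 : ∀ k, (2 : ℂ) * (a w T k : ℂ) = (if k ∈ S T then (n : ℂ) else 0) +
      ∑ h ∈ S T, w h k := by
    intro k
    rw [← two_norm hw hT k, norm_eq_a hw hT]
    push_cast
    rfl
  have h2 := h1 (u • k)
  have h3 : (if u • k ∈ S T then (n : ℂ) else 0) = if k ∈ S T then (n : ℂ) else 0 :=
    if_congr (smul_mem_S hw hT hu k) rfl rfl
  rw [sum_S_smul hw hT hu, h3, ← h1 k] at h2
  exact_mod_cast mul_left_cancel₀ two_ne_zero h2

theorem a_eq_zero_iff (hw : Symp n w) (hT : Para n w T) (k : P) : a w T k = 0 ↔ k ∉ S T := by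
  rw [← D_eq_zero_iff hw hT, ← norm_eq_zero, norm_eq_a hw hT]
  exact_mod_cast Iff.rfl

/-- Poisson summation. -/
theorem poisson_a (hw : Symp n w) (hT : Para n w T) (K : AddSubgroup P)
    [DecidablePred (· ∈ K)] :
    2 * ∑ k ∈ univ.filter (· ∈ K), a w T k =
      n * ((S T).filter (· ∈ K)).card +
        (univ.filter (· ∈ K)).card * ((S T).filter fun h => ∀ k ∈ K, w h k = 1).card := by
  have h1 := poisson hw hT K
  rw [Finset.sum_congr rfl (fun k _ => norm_eq_a hw hT k)] at h1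
  exact_mod_cast h1

/-- `4 a - n ≥ 0` on the support. -/
theorem four_a_ge (hw : Symp n w) (hT : Para n w T) {k : P} (hk : k ∈ S T) :
    n ≤ 4 * a w T k := by
  by_cases h0 : k = 0
  · subst h0
    rw [a_zero hw, hT.card]
    nlinarith [hw.pos]
  · have h1 := two_re hw hT hk h0
    have h2 : (D w T k).re ≤ ‖D w T k‖ := Complex.re_le_norm _
    rw [norm_eq_a hw hT] at h1 h2
    have h3 : (n : ℝ) ≤ 4 * a w T k := by linarith
    exact_mod_cast h3

/-- `4 (Im D)^2 = n (4 a - n)`. -/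
theorem im_sq (hw : Symp n w) (hT : Para n w T) {k : P} (hk : k ∈ S T) (h0 : k ≠ 0) :
    4 * (D w T k).im ^ 2 = n * (4 * a w T k - n) := by
  have h1 := two_re hw hT hk h0
  have h2 : ‖D w T k‖ ^ 2 = (D w T k).re ^ 2 + (D w T k).im ^ 2 := by
    rw [← Complex.normSq_eq_norm_sq, Complex.normSq_apply]
    ring
  rw [norm_eq_a hw hT] at h1 h2
  have h3 : (D w T k).re = n / 2 - a w T k := by linarith
  rw [h3] at h2
  linear_combination (-4) * h2

end Para

end Pool.Agent.SicPara
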