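import Mathlib
import Pool.Agent.Lib.MP_d0f9e0_co.S1.ParaInt

/-! # Primary parts of a symplectic group -/

set_option autoImplicit false
set_option linter.unusedSectionVars false

namespace Pool.Agent.SicPara

open Finset

variable {P : Type*} [AddCommGroup P] [Fintype P] [DecidableEq P]

/-- The subgroup of the multiples of `e`. -/
def Mul (P : Type*) [AddCommGroup P] (e : ℕ) : AddSubgroup P :=
  (nsmulAddMonoidHom e : P →+ P).range

theorem mem_Mul {e : ℕ} {k : P} : k ∈ Mul P e ↔ ∃ x, e • x = k := by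
  unfold Mul
  rw [AddMonoidHom.mem_range]
  rfl

namespace Symp

variable {n r e : ℕ} {w : P → P → ℂ}

theorem mem_Mul_iff (hw : Symp n w) (hn : n = r * e) (hre : Nat.Coprime r e) (k : P) :
    k ∈ Mul P e ↔ r • k = 0 := by
  rw [mem_Mul]
  constructor
  · rintro ⟨x, rfl⟩
    rw [smul_smul, ← hn, hw.tors]
  · intro h
    have h1 := Nat.gcd_eq_gcd_ab r e
    rw [Nat.Coprime] at hre
    rw [hre] at h1
    refine ⟨(Nat.gcdB r e) • k, ?_⟩
    have h2 : ((1 : ℕ) : ℤ) • k = k := by simp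
    have h3 : (r : ℤ) • k = 0 := by rw [natCast_zsmul, h]
    rw [h1, add_smul, mul_comm (r : ℤ), mul_smul, h3, smul_zero, zero_add, mul_smul,
      natCast_zsmul] at h2
    exact h2

theorem perp_Mul (hw : Symp n w) (h : P) : (∀ k ∈ Mul P e, w h k = 1) ↔ e • h = 0 := by
  constructor
  · intro h1
    by_contra h2
    obtain ⟨g, hg⟩ := hw.nondeg _ h2
    apply hg
    rw [hw.nsmul_left, ← hw.nsmul_right]
    exact h1 _ (mem_Mul.mpr ⟨g, rfl⟩)
  · rintro h1 k hk
    obtain ⟨x, rfl⟩ := mem_Mul.mp hk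
    rw [hw.nsmul_right, ← hw.nsmul_left, h1, hw.zero_left]

theorem card_Mul (hw : Symp n w) (e : ℕ) :
    Nat.card (Mul P e) * Nat.card (nsmulAddMonoidHom e : P →+ P).ker = n ^ 2 := by
  have h1 := AddSubgroup.index_ker (nsmulAddMonoidHom e : P →+ P)
  have h2 := AddSubgroup.card_mul_index (nsmulAddMonoidHom e : P →+ P).ker
  rw [h1] at h2
  unfold Mul
  rw [mul_comm, h2, Nat.card_eq_fintype_card, hw.card]

theorem sq_dvd_card_Mul (hw : Symp n w) (hn : n = r * e) (hre : Nat.Coprime r e) :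
    r ^ 2 ∣ Nat.card (Mul P e) := by
  have h1 := hw.card_Mul e
  have h2 : Nat.Coprime r (Nat.card (nsmulAddMonoidHom e : P →+ P).ker) := by
    rw [Nat.coprime_iff_gcd_eq_one]
    by_contra h
    obtain ⟨p, hp, hpd⟩ := Nat.exists_prime_and_dvd h
    have := Fact.mk hp
    have hpr : p ∣ r := hpd.trans (Nat.gcd_dvd_left _ _)
    have hpk : p ∣ Nat.card (nsmulAddMonoidHom e : P →+ P).ker := hpd.trans (Nat.gcd_dvd_right _ _)
    obtain ⟨x, hx⟩ := exists_prime_addOrderOf_dvd_card' p hpk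
    have hx1 : e • (x : P) = 0 := x.2
    have hx2 : p • (x : P) = 0 := by
      have h3 := addOrderOf_nsmul_eq_zero x
      rw [hx] at h3
      have h4 := congrArg (fun y : (nsmulAddMonoidHom e : P →+ P).ker => (y : P)) h3
      simpa using h4
    have hpe : Nat.Coprime p e := Nat.Coprime.coprime_dvd_left hpr hre
    have hx3 : (x : P) = 0 := by
      have h4 : addOrderOf (x : P) ∣ 1 := by
        have h5 : addOrderOf (x : P) ∣ Nat.gcd p e :=
          Nat.dvd_gcd (addOrderOf_dvd_of_nsmul_eq_zero hx2) (addOrderOf_dvd_of_nsmul_eq_zero hx1)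
        rwa [hpe] at h5
      exact AddMonoid.addOrderOf_eq_one_iff.mp (Nat.dvd_one.mp h4)
    have hx4 : x = 0 := Subtype.ext hx3
    rw [hx4, addOrderOf_zero] at hx
    exact hp.one_lt.ne hx
  have h3 : r ^ 2 ∣ n ^ 2 := pow_dvd_pow_of_dvd ⟨e, hn⟩ 2
  rw [← h1] at h3
  exact (Nat.Coprime.pow_left 2 h2).dvd_of_dvd_mul_right h3

theorem card_filter (K : AddSubgroup P) [DecidablePred (· ∈ K)] :
    (univ.filter (· ∈ K)).card = Nat.card K := by
  rw [Nat.card_eq_fintype_card, Fintype.card_subtype]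

end Symp

theorem two_dvd_sum' {X : Finset P} (hX : ∀ k ∈ X, -k ∈ X) (f : P → ℤ)
    (hfix : ∀ k ∈ X, -k = k → (2 : ℤ) ∣ f k)
    (hf : ∀ k ∈ X, f (-k) = f k) : (2 : ℤ) ∣ ∑ k ∈ X, f k := by
  have h : ((∑ k ∈ X, f k : ℤ) : ZMod 2) = 0 := by
    push_cast
    refine Finset.sum_involution (fun k _ => -k) ?_ ?_ ?_ ?_
    · intro k hk
      rw [hf k hk]
      exact CharTwo.add_self_eq_zero _
    · intro k hk h1 h2
      exact h1 ((ZMod.intCast_zmod_eq_zero_iff_dvd _ 2).mpr (hfix k hk h2))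
    · intro k hk
      exact hX k hk
    · intro k _
      exact neg_neg k
  exact (ZMod.intCast_zmod_eq_zero_iff_dvd _ 2).mp h

end Pool.Agent.SicPara
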