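import Mathlib
import Pool.Agent.Lib.MP_d0f9e0_co.S1.ParaPrim

/-! # There are no parabolic sets for `n = 4 mod 8` -/

set_option autoImplicit false
set_option linter.unusedSectionVars false

namespace Pool.Agent.SicPara

open Finset

variable {P : Type*} [AddCommGroup P] [Fintype P] [DecidableEq P]

theorem four_cases {z : ℂ} (hz : z ^ 4 = 1) :
    z = 1 ∨ z = -1 ∨ z = Complex.I ∨ z = -Complex.I := by
  have h : (z - 1) * ((z + 1) * ((z - Complex.I) * (z + Complex.I))) = 0 := by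
    have h1 : Complex.I ^ 2 = -1 := Complex.I_sq
    linear_combination hz - (z ^ 2 - 1) * h1
  rcases mul_eq_zero.mp h with h | h
  · left
    exact sub_eq_zero.mp h
  rcases mul_eq_zero.mp h with h | h
  · right; left
    exact eq_neg_of_add_eq_zero_left h
  rcases mul_eq_zero.mp h with h | h
  · right; right; left
    exact sub_eq_zero.mp h
  · right; right; right
    exact eq_neg_of_add_eq_zero_left h

theorem inv_of_four {z : ℂ} (hz : z ^ 4 = 1) : z⁻¹ = z ^ 3 := by
  have h : z * z ^ 3 = 1 := by rw [← hz]; ring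
  exact (eq_inv_of_mul_eq_one_right h).symm

theorem four_one {z : ℂ} (hz : z ^ 4 = 1) : 1 + z + z ^ 2 + z ^ 3 = 4 * (if z = 1 then 1 else 0) := by
  by_cases h : z = 1
  · rw [if_pos h, h]
    norm_num
  · rw [if_neg h, mul_zero]
    have h1 : (z - 1) * (1 + z + z ^ 2 + z ^ 3) = 0 := by linear_combination hz
    exact (mul_eq_zero.mp h1).resolve_left (sub_ne_zero.mpr h)

theorem four_I {z : ℂ} (hz : z ^ 4 = 1) :
    1 - Complex.I * z - z ^ 2 + Complex.I * z ^ 3 = 4 * (if z = Complex.I then 1 else 0) := by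
  have hI : Complex.I ^ 2 = -1 := Complex.I_sq
  by_cases h : z = Complex.I
  · rw [if_pos h, h]
    linear_combination (-2 + (Complex.I ^ 2 - 1)) * hI
  · rw [if_neg h, mul_zero]
    have h1 : (z - Complex.I) * (1 - Complex.I * z - z ^ 2 + Complex.I * z ^ 3) = 0 := by
      linear_combination Complex.I * hz + (z - z ^ 3) * hI
    exact (mul_eq_zero.mp h1).resolve_left (sub_ne_zero.mpr h)

namespace Para

variable {n : ℕ} {w : P → P → ℂ} {T : Finset P}

theorem pow_four (hw : Symp n w) {k : P} (hk : (4 : ℕ) • k = 0) (h : P) : w h k ^ 4 = 1 := by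
  rw [← hw.nsmul_right, hk, hw.zero_right]

theorem count_one (hw : Symp n w) {k : P} (hk : (4 : ℕ) • k = 0) :
    D w T 0 + D w T k + D w T ((2 : ℕ) • k) + D w T (-k) =
      4 * ((T.filter fun h => w h k = 1).card : ℂ) := by
  unfold D
  rw [← Finset.sum_add_distrib, ← Finset.sum_add_distrib, ← Finset.sum_add_distrib,
    Finset.card_filter]
  push_cast
  rw [Finset.mul_sum]
  refine Finset.sum_congr rfl fun h _ => ?_
  rw [hw.zero_right, hw.nsmul_right, hw.neg_right, inv_of_four (pow_four hw hk h),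
    four_one (pow_four hw hk h)]

theorem count_I (hw : Symp n w) {k : P} (hk : (4 : ℕ) • k = 0) :
    D w T 0 - Complex.I * D w T k - D w T ((2 : ℕ) • k) + Complex.I * D w T (-k) =
      4 * ((T.filter fun h => w h k = Complex.I).card : ℂ) := by
  unfold D
  rw [Finset.mul_sum, Finset.mul_sum, ← Finset.sum_sub_distrib, ← Finset.sum_sub_distrib,
    ← Finset.sum_add_distrib, Finset.card_filter]
  push_cast
  rw [Finset.mul_sum]
  refine Finset.sum_congr rfl fun h _ => ?_
  rw [hw.zero_right, hw.nsmul_right, hw.neg_right, inv_of_four (pow_four hw hk h),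
    four_I (pow_four hw hk h)]

/-- Involutions. -/
theorem involution (hw : Symp n w) (hT : Para n w T) {k : P} (h0 : k ≠ 0)
    (hk : (2 : ℕ) • k = 0) : k ∈ S T ∧ 4 * D w T k = n ∧ 4 * a w T k = n := by
  have hneg : -k = k := by
    rw [two_nsmul] at hk
    exact neg_eq_of_add_eq_zero_left hk
  have hkT : k ∉ T := by
    intro h
    have := hT.disj k h
    rw [hneg] at this
    exact this h
  have hS : k ∈ S T := mem_S.mpr ⟨hkT, by rwa [hneg]⟩
  have h1 := hT.par k hkT (by rwa [hneg]) h0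
  rw [hneg] at h1
  have hn : (n : ℂ) ≠ 0 := by exact_mod_cast hw.pos.ne'
  have h2 : 4 * D w T k = n := by
    have h3 : (n : ℂ) * (4 * D w T k) = n * n := by linear_combination (-1) * h1
    exact mul_left_cancel₀ hn h3
  refine ⟨hS, h2, ?_⟩
  have h3 := congrArg (fun z : ℂ => ‖z‖) h2
  simp only [norm_mul, Complex.norm_natCast] at h3
  rw [norm_eq_a hw hT] at h3
  simp at h3
  exact_mod_cast h3

/-- Elements of order four. -/
theorem order_four (hw : Symp n w) (hT : Para n w T) {e : ℕ} (hn : n = 4 * e) (he : Odd e)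
    {k : P} (hk : (4 : ℕ) • k = 0) (h2 : (2 : ℕ) • k ≠ 0) :
    k ∈ S T ∧ (4 : ℤ) ∣ (a w T k : ℤ) - e := by
  have h0 : k ≠ 0 := by
    rintro rfl
    exact h2 (smul_zero _)
  have h22 : (2 : ℕ) • (2 : ℕ) • k = 0 := by
    rw [smul_smul]
    exact hk
  obtain ⟨-, hD2, -⟩ := involution hw hT h2 h22
  have hD2' : D w T ((2 : ℕ) • k) = e := by
    rw [hn] at hD2
    push_cast at hD2
    exact mul_left_cancel₀ (by norm_num) hD2
  have hD0 : D w T 0 = e * (4 * e + 1) := by
    rw [hw.D_zero]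
    have h3 := hT.card_T
    rw [hn] at h3
    push_cast at h3
    have h4 : (4 : ℂ) * T.card = 4 * (e * (4 * e + 1)) := by rw [h3]; ring
    exact mul_left_cancel₀ (by norm_num) h4
  have hc1 := count_one (T := T) hw hk
  have hcI := count_I (T := T) hw hk
  rw [hD0, hD2', hw.D_neg] at hc1 hcI
  set t0 := (T.filter fun h => w h k = 1).card
  set t1 := (T.filter fun h => w h k = Complex.I).card
  have hr1 := congrArg Complex.re hc1
  have hrI := congrArg Complex.re hcI
  simp at hr1 hrI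
  obtain ⟨m, hm⟩ := he
  have hS : k ∈ S T := by
    by_contra hk'
    rw [D_eq_zero hw hT hk'] at hr1
    simp at hr1
    have h3 : 4 * (e : ℤ) ^ 2 + 2 * e = 4 * t0 := by
      have : (4 : ℝ) * (e : ℝ) ^ 2 + 2 * e = 4 * t0 := by linarith
      exact_mod_cast this
    have h4 : (e : ℤ) = 2 * m + 1 := by exact_mod_cast hm
    generalize (e : ℤ) ^ 2 = x at h3
    omega
  have hre := two_re hw hT hS h0
  have him := im_sq hw hT hS h0
  rw [norm_eq_a hw hT] at hre
  refine ⟨hS, ?_⟩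
  have hnR : (n : ℝ) = 4 * e := by exact_mod_cast hn
  rw [hnR] at hre him
  have h3 : 2 * (a w T k : ℤ) = 4 * (e : ℤ) ^ 2 + 6 * e - 4 * t0 := by
    have : (2 : ℝ) * (a w T k : ℝ) = 4 * (e : ℝ) ^ 2 + 6 * e - 4 * t0 := by linarith
    exact_mod_cast this
  have h4 : (D w T k).im = 2 * (t1 : ℝ) - 2 * (e : ℝ) ^ 2 := by linarith
  rw [h4] at him
  have h5 : ((t1 : ℤ) - (e : ℤ) ^ 2) ^ 2 = e * ((a w T k : ℤ) - e) := by
    have : ((t1 : ℝ) - (e : ℝ) ^ 2) ^ 2 = e * ((a w T k : ℝ) - e) := by linarith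
    exact_mod_cast this
  have hme : (e : ℤ) = 2 * m + 1 := by exact_mod_cast hm
  obtain ⟨j, hj⟩ : ∃ j : ℤ, (a w T k : ℤ) - e = 2 * j := by
    generalize (e : ℤ) ^ 2 = x at h3
    exact ⟨((a w T k : ℤ) - e) / 2, by omega⟩
  generalize hy : (t1 : ℤ) - (e : ℤ) ^ 2 = y at h5
  have hye : Even (y ^ 2) := by
    rw [h5, hj]
    exact ⟨e * j, by ring⟩
  rw [Int.even_pow] at hye
  obtain ⟨y', hy'⟩ := hye.1
  rw [hy'] at h5
  have h6 : (4 : ℤ) ∣ e * ((a w T k : ℤ) - e) := ⟨y' ^ 2, by rw [← h5]; ring⟩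
  have h7 : IsCoprime (4 : ℤ) e := by
    rw [hme]
    have h8 : IsCoprime (2 : ℤ) (2 * (m : ℤ) + 1) := ⟨-m, 1, by ring⟩
    have := h8.pow_left (m := 2)
    norm_num at this
    exact this
  exact h7.dvd_of_dvd_mul_left h6

theorem not_four (hw : Symp n w) (hT : Para n w T) {e : ℕ} (hn : n = 4 * e) (he : Odd e) :
    False := by
  classical
  have hcop : Nat.Coprime 4 e := by
    have : Nat.Coprime 2 e := he.coprime_two_left
    exact Nat.Coprime.pow_left 2 this
  have hmem : ∀ k, k ∈ Mul P e ↔ (4 : ℕ) • k = 0 := hw.mem_Mul_iff hn hcop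
  obtain ⟨κ, hκ⟩ := hw.sq_dvd_card_Mul hn hcop
  have hdiv : ∀ k ∈ Mul P e, k ≠ 0 → k ∈ S T ∧ ∃ c : ℤ, (a w T k : ℤ) - e = 4 * c ∧
      ((2 : ℕ) • k = 0 → c = 0) := by
    intro k hk h0
    by_cases h2 : (2 : ℕ) • k = 0
    · obtain ⟨h3, -, h4⟩ := involution hw hT h0 h2
      refine ⟨h3, 0, ?_, fun _ => rfl⟩
      omega
    · obtain ⟨h3, h4⟩ := order_four hw hT hn he ((hmem k).mp hk) h2
      obtain ⟨c, hc⟩ := h4
      exact ⟨h3, c, hc, fun h => absurd h h2⟩
  have hall : ∀ k ∈ Mul P e, k ∈ S T := by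
    intro k hk
    by_cases h0 : k = 0
    · rw [h0]
      exact hT.zero_mem_S
    · exact (hdiv k hk h0).1
  have hex : ∀ k, ∃ c : ℤ, k ∈ Mul P e → k ≠ 0 → ((a w T k : ℤ) - e = 4 * c ∧
      ((2 : ℕ) • k = 0 → c = 0)) := by
    intro k
    by_cases h1 : k ∈ Mul P e
    · by_cases h2 : k = 0
      · exact ⟨0, fun _ h => absurd h2 h⟩
      · obtain ⟨c, hc⟩ := (hdiv k h1 h2).2
        exact ⟨c, fun _ _ => hc⟩
    · exact ⟨0, fun h => absurd h h1⟩
  choose c hc using hex
  have h2 : (2 : ℤ) ∣ ∑ k ∈ (univ.filter (· ∈ Mul P e)).erase 0, c k := by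
    apply two_dvd_sum'
    · intro k hk
      rw [Finset.mem_erase, Finset.mem_filter] at hk ⊢
      exact ⟨neg_ne_zero.mpr hk.1, Finset.mem_univ _, (Mul P e).neg_mem hk.2.2⟩
    · intro k hk hneg
      rw [Finset.mem_erase, Finset.mem_filter] at hk
      have h3 : (2 : ℕ) • k = 0 := by
        rw [two_nsmul]
        nth_rewrite 1 [← hneg]
        exact neg_add_cancel k
      rw [(hc k hk.2.2 hk.1).2 h3]
      exact dvd_zero _
    · intro k hk
      rw [Finset.mem_erase, Finset.mem_filter] at hk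
      have h3 := (hc k hk.2.2 hk.1).1
      have h4 := (hc (-k) ((Mul P e).neg_mem hk.2.2) (neg_ne_zero.mpr hk.1)).1
      rw [a_neg hw, h3] at h4
      exact (mul_left_cancel₀ (by norm_num) h4).symm
  have hsum : ∑ k ∈ univ.filter (· ∈ Mul P e), (a w T k : ℤ) =
      T.card + ((16 * κ : ℤ) - 1) * e + 4 * ∑ k ∈ (univ.filter (· ∈ Mul P e)).erase 0, c k := by
    have h0 : (0 : P) ∈ univ.filter (· ∈ Mul P e) :=
      Finset.mem_filter.mpr ⟨Finset.mem_univ _, (Mul P e).zero_mem⟩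
    rw [← Finset.add_sum_erase _ _ h0, a_zero hw, add_assoc]
    congr 1
    have h3 : ∀ k ∈ (univ.filter (· ∈ Mul P e)).erase 0, (a w T k : ℤ) = e + 4 * c k := by
      intro k hk
      rw [Finset.mem_erase, Finset.mem_filter] at hk
      rw [← (hc k hk.2.2 hk.1).1]
      ring
    rw [Finset.sum_congr rfl h3, Finset.sum_add_distrib, Finset.sum_const, ← Finset.mul_sum,
      Finset.card_erase_of_mem h0, Symp.card_filter, hκ]
    have hκ0 : 0 < 4 ^ 2 * κ := by
      rw [← hκ]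
      exact Nat.card_pos
    rw [nsmul_eq_mul, Nat.cast_sub hκ0]
    push_cast
    ring
  have hP := poisson_a hw hT (Mul P e)
  have h3 : (S T).filter (· ∈ Mul P e) = univ.filter (· ∈ Mul P e) := by
    ext k
    rw [Finset.mem_filter, Finset.mem_filter]
    exact ⟨fun h => ⟨Finset.mem_univ _, h.2⟩, fun h => ⟨hall k h.2, h.2⟩⟩
  rw [h3, Symp.card_filter, hκ] at hP
  generalize ((S T).filter fun h => ∀ k ∈ Mul P e, w h k = 1).card = z at hP
  have hcard := hT.card
  zify at hP hcard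
  rw [hsum] at hP
  obtain ⟨s, hs⟩ := h2
  rw [hs] at hP
  obtain ⟨m, hm⟩ := he
  have hn' : (n : ℤ) = 4 * e := by exact_mod_cast hn
  have hme : (e : ℤ) = 2 * m + 1 := by exact_mod_cast hm
  rw [hn'] at hP hcard
  have h4 : (T.card : ℤ) = e * (4 * e + 1) := by
    have h5 : (4 : ℤ) * T.card = 4 * (e * (4 * e + 1)) := by rw [hcard]; ring
    exact mul_left_cancel₀ (by norm_num) h5
  rw [h4] at hP
  have h5 : (8 : ℤ) * e ^ 2 = 16 * (κ * (2 * e + z) - s) := by
    push_cast at hP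
    linear_combination hP
  rw [hme] at h5
  have h6 : (8 : ℤ) = 16 * (κ * (2 * (2 * m + 1) + z) - s - 2 * m ^ 2 - 2 * m) := by
    linear_combination h5
  generalize (κ : ℤ) * (2 * (2 * m + 1) + z) - s - 2 * (m : ℤ) ^ 2 - 2 * m = y at h6
  omega

end Para

end Pool.Agent.SicPara
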