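import Mathlib
import Pool.Agent.Lib.MP_d0f9e0_co.S1.ParaPrim

/-! # Parabolic sets of odd order: no prime factor is `1 mod 4` -/

set_option autoImplicit false
set_option linter.unusedSectionVars false

namespace Pool.Agent.SicPara

open Finset

/-- A unit modulo `p ^ κ * e` whose square is `-1` modulo `p ^ κ`. -/
theorem exists_unit {p κ e : ℕ} (hp : p.Prime) (h4 : p % 4 = 1) (hκ : 0 < κ)
    (hcop : Nat.Coprime (p ^ κ) e) :
    ∃ u : ℕ, Nat.Coprime u (p ^ κ * e) ∧ p ^ κ ∣ u * u + 1 := by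
  have := Fact.mk hp
  obtain ⟨v, hv⟩ := (ZMod.exists_sq_eq_neg_one_iff (p := p)).mpr (by omega)
  obtain ⟨κ', rfl⟩ : ∃ κ', κ = κ' + 1 := ⟨κ - 1, by omega⟩
  have hodd : Odd p := Nat.odd_iff.mpr (by omega)
  have h1 : (p : ℤ) ∣ ((v.val : ℤ)) ^ 2 - (-1) := by
    rw [← ZMod.intCast_zmod_eq_zero_iff_dvd]
    push_cast
    rw [ZMod.natCast_zmod_val, sq, ← hv]
    ring
  have h2 := dvd_sub_pow_of_dvd_sub h1 κ'
  have h3 : (-1 : ℤ) ^ p ^ κ' = -1 := (hodd.pow).neg_one_pow
  rw [h3, sub_neg_eq_add] at h2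
  set u0 := v.val ^ p ^ κ' with hu0
  have h5 : p ^ (κ' + 1) ∣ u0 * u0 + 1 := by
    have h6 : ((p ^ (κ' + 1) : ℕ) : ℤ) ∣ ((u0 * u0 + 1 : ℕ) : ℤ) := by
      have h7 : ((u0 * u0 + 1 : ℕ) : ℤ) = (((v.val : ℤ)) ^ 2) ^ p ^ κ' + 1 := by
        rw [hu0]
        push_cast
        ring
      rw [h7]
      push_cast
      exact h2
    exact_mod_cast h6
  obtain ⟨u, hu1, hu2⟩ := Nat.chineseRemainder hcop u0 1
  have h6 : p ^ (κ' + 1) ∣ u * u + 1 := by
    have h7 : u * u + 1 ≡ u0 * u0 + 1 [MOD p ^ (κ' + 1)] := (hu1.mul hu1).add_right 1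
    exact (Nat.ModEq.dvd_iff h7 (dvd_refl _)).mpr h5
  refine ⟨u, ?_, h6⟩
  apply Nat.Coprime.mul_right
  · apply Nat.Coprime.pow_right
    rw [Nat.coprime_comm, hp.coprime_iff_not_dvd]
    intro hpu
    have h8 : p ∣ u * u + 1 := (dvd_pow_self p (Nat.succ_ne_zero _)).trans h6
    have h9 : p ∣ 1 := (Nat.dvd_add_right (hpu.mul_right u)).mp h8
    exact hp.one_lt.ne' (Nat.dvd_one.mp h9)
  · have h7 : Nat.gcd u e = Nat.gcd 1 e := hu2.gcd_eq
    rw [Nat.gcd_one_left] at h7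
    exact h7

variable {P : Type*} [AddCommGroup P] [Fintype P] [DecidableEq P]

namespace Para

variable {n : ℕ} {w : P → P → ℂ} {T : Finset P}

theorem D_smul_or (hw : Symp n w) (hT : Para n w T) {u : ℕ} (hu : Nat.Coprime u n) {k : P}
    (hk : k ∈ S T) (h0 : k ≠ 0) : D w T (u • k) = D w T k ∨ D w T (u • k) = D w T (-k) := by
  have hk' : u • k ∈ S T := (smul_mem_S hw hT hu k).mpr hk
  have h0' : u • k ≠ 0 := by
    intro h
    obtain ⟨v, -, hv⟩ := exists_inv hw hu
    apply h0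
    rw [← hv k, h, smul_zero]
  have hre1 := two_re hw hT hk h0
  have hre2 := two_re hw hT hk' h0'
  have him1 := im_sq hw hT hk h0
  have him2 := im_sq hw hT hk' h0'
  rw [norm_eq_a hw hT] at hre1 hre2
  rw [a_smul hw hT hu] at hre2 him2
  have hre : (D w T (u • k)).re = (D w T k).re := by linarith
  have him : (D w T (u • k)).im ^ 2 = (D w T k).im ^ 2 := by linarith
  rcases sq_eq_sq_iff_eq_or_eq_neg.mp him with h | h
  · left
    exact Complex.ext hre h
  · right
    rw [hw.D_neg]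
    exact Complex.ext (by simpa using hre) (by simpa using h)

theorem not_mem_S (hw : Symp n w) (hT : Para n w T) (hn : Odd n) {u : ℕ} (hu : Nat.Coprime u n)
    {k : P} (hk : (u * u) • k = -k) (h0 : k ≠ 0) : k ∉ S T := by
  intro hS
  have h1 : D w T (-k) = D w T k := by
    rcases D_smul_or hw hT hu hS h0 with h | h
    · have h2 := D_eq_of_eq hw (u • k) k hu h
      rw [smul_smul, hk, h] at h2
      exact h2
    · have h2 := D_eq_of_eq hw (u • k) (-k) hu h
      rw [smul_smul, hk, smul_neg, hw.D_neg T (u • k), h, ← hw.D_neg, neg_neg] at h2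
      exact h2
  rw [hw.D_neg] at h1
  have h2 : (D w T k).im = 0 := Complex.conj_eq_iff_im.mp h1
  have h3 := im_sq hw hT hS h0
  rw [h2] at h3
  have h4 : (n : ℝ) ≠ 0 := by exact_mod_cast hw.pos.ne'
  have h5 : (4 : ℝ) * a w T k - n = 0 := by
    have h6 : (n : ℝ) * (4 * a w T k - n) = 0 := by rw [← h3]; ring
    exact (mul_eq_zero.mp h6).resolve_left h4
  have h6 : 4 * a w T k = n := by
    have : (4 : ℝ) * a w T k = n := by linarith
    exact_mod_cast this
  obtain ⟨m, hm⟩ := hn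
  omega

/-- No prime factor of an odd `n` is `1 mod 4`. -/
theorem prime_mod_four (hw : Symp n w) (hT : Para n w T) (hn : Odd n) {p : ℕ} (hp : p.Prime)
    (hpn : p ∣ n) : p % 4 = 3 := by
  classical
  by_contra hcon
  have hp2 : p ≠ 2 := by
    rintro rfl
    exact (Nat.not_even_iff_odd.mpr hn) (even_iff_two_dvd.mpr hpn)
  have h4 : p % 4 = 1 := by
    have h5 : p % 2 = 1 := hp.eq_two_or_odd.resolve_left hp2
    omega
  obtain ⟨κ, e, he, hne⟩ := Nat.exists_eq_pow_mul_and_not_dvd hw.pos.ne' p hp.one_lt.ne'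
  have hκ : 0 < κ := by
    rcases Nat.eq_zero_or_pos κ with h | h
    · rw [h, pow_zero, one_mul] at hne
      rw [hne] at hpn
      exact absurd hpn he
    · exact h
  have hcop1 : Nat.Coprime p e := (hp.coprime_iff_not_dvd).mpr he
  have hcop : Nat.Coprime (p ^ κ) e := Nat.Coprime.pow_left κ hcop1
  obtain ⟨u, hu, hu2⟩ := exists_unit hp h4 hκ hcop
  rw [← hne] at hu
  have hmem : ∀ k, k ∈ Mul P e ↔ (p ^ κ) • k = 0 := hw.mem_Mul_iff hne hcop
  obtain ⟨c, hc⟩ := hw.sq_dvd_card_Mul hne hcop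
  have hKS : (S T).filter (· ∈ Mul P e) = {0} := by
    ext k
    rw [Finset.mem_filter, Finset.mem_singleton]
    constructor
    · rintro ⟨h1, h2⟩
      by_contra h0
      refine not_mem_S hw hT hn hu ?_ h0 h1
      have h3 : (u * u + 1) • k = 0 := by
        obtain ⟨d, hd⟩ := hu2
        rw [hd, mul_comm, mul_smul, (hmem k).mp h2, smul_zero]
      rw [add_smul, one_smul] at h3
      exact eq_neg_of_add_eq_zero_left h3
    · rintro rfl
      exact ⟨hT.zero_mem_S, (Mul P e).zero_mem⟩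
  have hP := poisson_a hw hT (Mul P e)
  rw [hKS, Finset.card_singleton, Symp.card_filter, hc] at hP
  have hsum : ∑ k ∈ univ.filter (· ∈ Mul P e), a w T k = T.card := by
    rw [← a_zero hw (T := T)]
    apply Finset.sum_eq_single_of_mem 0
    · exact Finset.mem_filter.mpr ⟨Finset.mem_univ _, (Mul P e).zero_mem⟩
    · intro k hk h0
      rw [a_eq_zero_iff hw hT]
      intro h1
      have h2 : k ∈ (S T).filter (· ∈ Mul P e) :=
        Finset.mem_filter.mpr ⟨h1, (Finset.mem_filter.mp hk).2⟩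
      rw [hKS, Finset.mem_singleton] at h2
      exact h0 h2
  rw [hsum] at hP
  generalize ((S T).filter fun h => ∀ k ∈ Mul P e, w h k = 1).card = z at hP
  have hcard := hT.card
  have h1 : (p ^ κ) ^ 2 ∣ n * (n - 1) := by
    refine ⟨2 * c * z, ?_⟩
    have h2 : n * (n + 1) = 2 * n + 2 * ((p ^ κ) ^ 2 * c * z) := by
      rw [← hcard]
      linarith
    have h3 : n * (n + 1) = n * (n - 1) + 2 * n := by
      obtain ⟨m, rfl⟩ : ∃ m, n = m + 1 := ⟨n - 1, (Nat.succ_pred_eq_of_pos hw.pos).symm⟩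
      rw [Nat.add_sub_cancel]
      ring
    rw [h3] at h2
    linarith
  have h2 : p ^ κ * p ^ κ ∣ p ^ κ * (e * (n - 1)) := by
    rw [← mul_assoc, ← hne, ← sq]
    exact h1
  have h3 := Nat.dvd_of_mul_dvd_mul_left (pow_pos hp.pos κ) h2
  have h5 : p ∣ e * (n - 1) := (dvd_pow_self p hκ.ne').trans h3
  rcases (hp.dvd_mul).mp h5 with h6 | h6
  · exact he h6
  · have h7 : p ∣ 1 := by
      have h8 : p ∣ n - (n - 1) := Nat.dvd_sub hpn h6
      have h9 : n - (n - 1) = 1 := by have := hw.pos; omega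
      rwa [h9] at h8
    exact hp.one_lt.ne' (Nat.dvd_one.mp h7)

end Para

end Pool.Agent.SicPara
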