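import Mathlib
import Pool.Agent.Lib.MP_d0f9e0_co.S1.ParaInt

/-! # Parabolic sets of groups of odd order: `n = 3 mod 16` -/

set_option autoImplicit false
set_option linter.unusedSectionVars false

namespace Pool.Agent.SicPara

open Finset

variable {P : Type*} [AddCommGroup P] [Fintype P] [DecidableEq P]

theorem two_dvd_sum {X : Finset P} (hX : ∀ k ∈ X, -k ∈ X) (hfix : ∀ k ∈ X, -k ≠ k) (f : P → ℤ)
    (hf : ∀ k ∈ X, f (-k) = f k) : (2 : ℤ) ∣ ∑ k ∈ X, f k := by
  have h : ((∑ k ∈ X, f k : ℤ) : ZMod 2) = 0 := by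
    push_cast
    refine Finset.sum_involution (fun k _ => -k) ?_ ?_ ?_ ?_
    · intro k hk
      rw [hf k hk]
      exact CharTwo.add_self_eq_zero _
    · intro k hk _
      exact hfix k hk
    · intro k hk
      exact hX k hk
    · intro k _
      exact neg_neg k
  exact (ZMod.intCast_zmod_eq_zero_iff_dvd _ 2).mp h

namespace Para

variable {n : ℕ} {w : P → P → ℂ} {T : Finset P}

theorem neg_ne (hw : Symp n w) (hn : Odd n) {k : P} (hk : k ≠ 0) : -k ≠ k := by
  intro h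
  have h1 : (2 : ℕ) • k = 0 := by
    rw [two_nsmul]
    nth_rewrite 1 [← h]
    exact neg_add_cancel k
  obtain ⟨m, rfl⟩ := hn
  have h2 := hw.tors k
  rw [add_smul, mul_comm, mul_smul, h1, smul_zero, zero_add, one_smul] at h2
  exact hk h2

theorem card_S (hT : Para n w T) : ((S T).card : ℤ) = Fintype.card P - 2 * T.card := by
  have h := hT.sum_S (fun _ => (1 : ℂ))
  simp only [Finset.sum_const, nsmul_eq_mul, mul_one, Finset.card_univ] at h
  have h1 : (((S T).card : ℤ) : ℂ) = (((Fintype.card P : ℤ) - 2 * T.card : ℤ) : ℂ) := by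
    push_cast
    rw [h]
    ring
  exact_mod_cast h1

theorem sum_univ (hw : Symp n w) (hT : Para n w T) : ∑ k, (a w T k : ℤ) = n * T.card := by
  classical
  have h := poisson_a hw hT (⊤ : AddSubgroup P)
  simp only [AddSubgroup.mem_top, Finset.filter_true, forall_const, Finset.card_univ, hw.card] at h
  have h1 : ((S T).filter fun h => ∀ k, w h k = 1) = {0} := by
    ext h
    rw [Finset.mem_filter, Finset.mem_singleton]
    constructor
    · rintro ⟨-, h2⟩
      by_contra h3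
      obtain ⟨k, hk⟩ := hw.nondeg h h3
      exact hk (h2 k)
    · rintro rfl
      exact ⟨hT.zero_mem_S, fun k => hw.zero_left k⟩
  rw [h1, Finset.card_singleton] at h
  have h2 := card_S hT
  rw [hw.card] at h2
  have h3 := hT.card
  zify at h h3
  rw [h2] at h
  push_cast at h
  have h4 : (2 : ℤ) * ∑ k, (a w T k : ℤ) = 2 * (n * T.card) := by
    linear_combination h - (n : ℤ) * h3
  exact mul_left_cancel₀ two_ne_zero h4

theorem sum_sq (hw : Symp n w) (hT : Para n w T) :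
    ∑ k, (a w T k : ℤ) ^ 2 = n ^ 2 * T.card := by
  have h := hw.parseval T
  have h1 : ∀ k, D w T k * D w T (-k) = ((a w T k : ℂ)) ^ 2 := by
    intro k
    rw [hw.D_neg, Complex.mul_conj, Complex.normSq_eq_norm_sq, norm_eq_a hw hT]
    push_cast
    rfl
  rw [Finset.sum_congr rfl (fun k _ => h1 k)] at h
  exact_mod_cast h

theorem sum_lagrange (hw : Symp n w) (hT : Para n w T) (L : AddSubgroup P)
    [DecidablePred (· ∈ L)] (hL : (univ.filter (· ∈ L)).card = n)
    (hLL : ∀ h, (∀ k ∈ L, w h k = 1) ↔ h ∈ L) :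
    ∑ k ∈ univ.filter (· ∈ L), a w T k = n * ((S T).filter (· ∈ L)).card := by
  have h := poisson_a hw hT L
  rw [hL] at h
  have h1 : ((S T).filter fun h => ∀ k ∈ L, w h k = 1) = (S T).filter (· ∈ L) := by
    ext h
    rw [Finset.mem_filter, Finset.mem_filter, hLL]
  rw [h1] at h
  linarith

/-- First step: `n = 3 mod 8`. -/
theorem odd_three_mod_eight (hw : Symp n w) (hT : Para n w T) (hn : Odd n) (L : AddSubgroup P)
    [DecidablePred (· ∈ L)] (hL : (univ.filter (· ∈ L)).card = n)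
    (hLL : ∀ h, (∀ k ∈ L, w h k = 1) ↔ h ∈ L) : n % 8 = 3 := by
  have h := sum_lagrange hw hT L hL hLL
  have h0 := hT.card
  -- the sum over `L` is `a 0` modulo `2`
  have h1 : (2 : ℤ) ∣ ∑ k ∈ (univ.filter (· ∈ L)).erase 0, (a w T k : ℤ) := by
    apply two_dvd_sum
    · intro k hk
      rw [Finset.mem_erase, Finset.mem_filter] at hk ⊢
      exact ⟨neg_ne_zero.mpr hk.1, Finset.mem_univ _, L.neg_mem hk.2.2⟩
    · intro k hk
      exact neg_ne hw hn (Finset.mem_erase.mp hk).1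
    · intro k _
      rw [a_neg hw]
  have h2 : (2 : ℤ) ∣ ∑ k ∈ ((S T).filter (· ∈ L)).erase 0, (1 : ℤ) := by
    apply two_dvd_sum
    · intro k hk
      rw [Finset.mem_erase, Finset.mem_filter] at hk ⊢
      exact ⟨neg_ne_zero.mpr hk.1, neg_mem_S.mpr hk.2.1, L.neg_mem hk.2.2⟩
    · intro k hk
      exact neg_ne hw hn (Finset.mem_erase.mp hk).1
    · intro k _
      rfl
  have h3 : (a w T 0 : ℤ) + ∑ k ∈ (univ.filter (· ∈ L)).erase 0, (a w T k : ℤ) =
      ∑ k ∈ univ.filter (· ∈ L), (a w T k : ℤ) :=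
    Finset.add_sum_erase _ (fun k => (a w T k : ℤ))
      (Finset.mem_filter.mpr ⟨Finset.mem_univ _, L.zero_mem⟩)
  have h4 : (1 : ℤ) + ∑ k ∈ ((S T).filter (· ∈ L)).erase 0, (1 : ℤ) =
      ∑ k ∈ (S T).filter (· ∈ L), (1 : ℤ) :=
    Finset.add_sum_erase _ (fun _ => (1 : ℤ))
      (Finset.mem_filter.mpr ⟨hT.zero_mem_S, L.zero_mem⟩)
  have h5 : ∑ k ∈ (S T).filter (· ∈ L), (1 : ℤ) = ((S T).filter (· ∈ L)).card := by simp
  zify at h
  rw [← h3, ← h5, ← h4, a_zero hw] at h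
  obtain ⟨x, hx⟩ := h1
  obtain ⟨y, hy⟩ := h2
  rw [hx, hy] at h
  obtain ⟨m, hm⟩ := hn
  have h6 : ((T.card : ℤ)) % 2 = 1 := by
    have h7 : (T.card : ℤ) = 2 * (m * (1 + 2 * y) + y - x) + 1 := by
      have h8 : (n : ℤ) = 2 * m + 1 := by exact_mod_cast hm
      rw [h8] at h
      linear_combination h
    omega
  have h7 : T.card % 2 = 1 := by omega
  -- 4 * card = n * (n + 1)
  have h8 : n % 8 = 1 ∨ n % 8 = 3 ∨ n % 8 = 5 ∨ n % 8 = 7 := by omega
  have h9 : (4 * T.card) % 8 = 4 := by omega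
  rw [h0, Nat.mul_mod, Nat.add_mod] at h9
  rcases h8 with h8 | h8 | h8 | h8 <;> rw [h8] at h9 <;> simp at h9 ⊢
  exact h8

/-- Second step: `n = 3 mod 16`. -/
theorem odd_three_mod_sixteen (hw : Symp n w) (hT : Para n w T) (hn : Odd n)
    (L : AddSubgroup P) [DecidablePred (· ∈ L)] (hL : (univ.filter (· ∈ L)).card = n)
    (hLL : ∀ h, (∀ k ∈ L, w h k = 1) ↔ h ∈ L) : n % 16 = 3 := by
  have h8 := odd_three_mod_eight hw hT hn L hL hLL
  obtain ⟨q, hq⟩ : ∃ q : ℤ, (n : ℤ) = 4 * q - 1 := ⟨(n + 1) / 4, by omega⟩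
  have hqo : q % 2 = 1 := by omega
  have hcard : (T.card : ℤ) = n * q := by
    have h1 := hT.card
    zify at h1
    have h2 : (n : ℤ) + 1 = 4 * q := by rw [hq]; ring
    rw [h2] at h1
    have h3 : (4 : ℤ) * T.card = 4 * (n * q) := by rw [h1]; ring
    exact mul_left_cancel₀ (by norm_num) h3
  -- the function `b`
  have hb : ∀ k : P, ∃ b : ℤ, 2 * b = ((a w T k : ℤ) - q) * ((a w T k : ℤ) - q - 1) := by
    intro k
    obtain ⟨b, hb⟩ := Int.even_mul_pred_self ((a w T k : ℤ) - q)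
    exact ⟨b, by rw [hb]; ring⟩
  choose b hb using hb
  have h1 : (2 : ℤ) ∣ ∑ k ∈ (S T).erase 0, b k := by
    apply two_dvd_sum
    · intro k hk
      rw [Finset.mem_erase] at hk ⊢
      exact ⟨neg_ne_zero.mpr hk.1, neg_mem_S.mpr hk.2⟩
    · intro k hk
      exact neg_ne hw hn (Finset.mem_erase.mp hk).1
    · intro k _
      have h2 := hb (-k)
      rw [a_neg hw, ← hb k] at h2
      exact mul_left_cancel₀ two_ne_zero h2
  -- the sum
  have hsum : ∑ k ∈ S T, ((a w T k : ℤ) - q) * ((a w T k : ℤ) - q - 1) =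
      n ^ 2 * T.card - (2 * q + 1) * (n * T.card) + (S T).card * (q * (q + 1)) := by
    have h2 : ∑ k, (a w T k : ℤ) = ∑ k ∈ S T, (a w T k : ℤ) := by
      symm
      apply Finset.sum_subset (Finset.subset_univ _)
      intro k _ hk
      rw [(a_eq_zero_iff hw hT k).mpr hk]
      rfl
    have h3 : ∑ k, (a w T k : ℤ) ^ 2 = ∑ k ∈ S T, (a w T k : ℤ) ^ 2 := by
      symm
      apply Finset.sum_subset (Finset.subset_univ _)
      intro k _ hk
      rw [(a_eq_zero_iff hw hT k).mpr hk]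
      rfl
    rw [← sum_sq hw hT, ← sum_univ hw hT, h2, h3]
    have h4 : ∀ k : P, ((a w T k : ℤ) - q) * ((a w T k : ℤ) - q - 1) =
        (a w T k : ℤ) ^ 2 - (2 * q + 1) * (a w T k : ℤ) + q * (q + 1) := by
      intro k
      ring
    rw [Finset.sum_congr rfl (fun k _ => h4 k), Finset.sum_add_distrib, Finset.sum_sub_distrib,
      ← Finset.mul_sum, Finset.sum_const, nsmul_eq_mul]
  have hsplit : ((a w T 0 : ℤ) - q) * ((a w T 0 : ℤ) - q - 1) +
      ∑ k ∈ (S T).erase 0, ((a w T k : ℤ) - q) * ((a w T k : ℤ) - q - 1) =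
      ∑ k ∈ S T, ((a w T k : ℤ) - q) * ((a w T k : ℤ) - q - 1) :=
    Finset.add_sum_erase _ (fun k => ((a w T k : ℤ) - q) * ((a w T k : ℤ) - q - 1))
      hT.zero_mem_S
  rw [hsum, a_zero hw] at hsplit
  have h2b : ∑ k ∈ (S T).erase 0, ((a w T k : ℤ) - q) * ((a w T k : ℤ) - q - 1) =
      2 * ∑ k ∈ (S T).erase 0, b k := by
    rw [Finset.mul_sum]
    exact Finset.sum_congr rfl fun k _ => (hb k).symm
  obtain ⟨s, hs⟩ := h1
  rw [h2b, hs] at hsplit
  have hcS := card_S hT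
  rw [hw.card] at hcS
  push_cast at hcS
  rw [hcS, hcard, hq] at hsplit
  obtain ⟨t, ht⟩ : ∃ t, q = 2 * t + 1 := ⟨q / 2, by omega⟩
  rw [ht] at hsplit
  -- `q (24 q^3 - 30 q^2 + 13 q - 3) = 4 s`
  have hfin : 4 * s = (2 * t + 1) * (24 * (2 * t + 1) ^ 3 - 30 * (2 * t + 1) ^ 2 +
      13 * (2 * t + 1) - 3) := by
    linear_combination hsplit
  have hfin2 : 4 * s = 4 * (96 * t ^ 4 + 132 * t ^ 3 + 67 * t ^ 2 + 1) + 58 * t := by
    linear_combination hfin
  generalize 96 * t ^ 4 + 132 * t ^ 3 + 67 * t ^ 2 + 1 = x at hfin2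
  omega

end Para

end Pool.Agent.SicPara
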