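import Mathlib
import Pool.Agent.Lib.MP_d0f9e0_co.S1.ParaOdd

/-! # Parabolic sets: divisibility of the numbers `a k` -/

set_option autoImplicit false
set_option linter.unusedSectionVars false

namespace Pool.Agent.SicPara

open Finset

theorem frob_sum {R : Type*} [CommRing R] {p : ℕ} (hp : p.Prime) {ι : Type*} (s : Finset ι)
    (x : ι → R) : (p : R) ∣ (∑ i ∈ s, x i) ^ p - ∑ i ∈ s, x i ^ p := by
  classical
  induction s using Finset.induction_on with
  | empty => simp [hp.ne_zero]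
  | insert i s hi ih =>
    rw [Finset.sum_insert hi, Finset.sum_insert hi]
    obtain ⟨r, hr⟩ := exists_add_pow_prime_eq hp (x i) (∑ i ∈ s, x i)
    obtain ⟨c, hc⟩ := ih
    exact ⟨x i * (∑ i ∈ s, x i) * r + c, by rw [hr]; linear_combination hc⟩

theorem frob_sub {R : Type*} [CommRing R] {p : ℕ} (hp : p.Prime) (x y : R) :
    (p : R) ∣ (x - y) ^ p - (x ^ p - y ^ p) := by
  obtain ⟨r, hr⟩ := exists_add_pow_prime_eq hp (x - y) y
  rw [sub_add_cancel] at hr
  exact ⟨-((x - y) * y * r), by rw [hr]; ring⟩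

/-- The ring of algebraic integers. -/
abbrev AI : Subalgebra ℤ ℂ := integralClosure ℤ ℂ

theorem int_dvd {q : ℕ} (hq : q ≠ 0) (m : ℤ) (h : (q : AI) ∣ (m : AI)) : (q : ℤ) ∣ m := by
  obtain ⟨r, hr⟩ := h
  have h1 : (m : ℂ) = q * (r : ℂ) := by
    have := congrArg (fun x : AI => (x : ℂ)) hr
    simpa using this
  have hq' : (q : ℂ) ≠ 0 := by exact_mod_cast hq
  have h2 : (r : ℂ) = algebraMap ℚ ℂ ((m : ℚ) / q) := by
    rw [map_div₀, map_intCast, map_natCast, h1]
    field_simp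
  have h3 : IsIntegral ℤ (r : ℂ) := r.2
  rw [h2] at h3
  have h4 : IsIntegral ℤ ((m : ℚ) / q) :=
    (isIntegral_algebraMap_iff (algebraMap ℚ ℂ).injective).mp h3
  obtain ⟨b, hb⟩ := IsIntegrallyClosed.isIntegral_iff.mp h4
  refine ⟨b, ?_⟩
  have hq'' : (q : ℚ) ≠ 0 := by exact_mod_cast hq
  have h5 : (m : ℚ) = q * b := by
    have h6 : (b : ℚ) = m / q := by
      rw [← hb]
      simp
    rw [h6]
    field_simp
  exact_mod_cast h5

variable {P : Type*} [AddCommGroup P] [Fintype P] [DecidableEq P]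

namespace Para

variable {n : ℕ} {w : P → P → ℂ} {T : Finset P}

/-- `w h k` as an algebraic integer. -/
def W (hw : Symp n w) (h k : P) : AI := ⟨w h k, isIntegral_w hw h k⟩

/-- `D k` as an algebraic integer. -/
def DI (hw : Symp n w) (T : Finset P) (k : P) : AI := ⟨D w T k, isIntegral_D hw k⟩

theorem DI_eq (hw : Symp n w) (k : P) : DI hw T k = ∑ h ∈ T, W hw h k := by
  apply Subtype.ext
  rw [AddSubmonoidClass.coe_finsetSum]
  rfl

theorem W_pow (hw : Symp n w) (h k : P) (m : ℕ) : W hw h k ^ m = W hw h (m • k) := by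
  apply Subtype.ext
  rw [SubmonoidClass.coe_pow]
  exact (hw.nsmul_right h k m).symm

theorem frob_DI (hw : Symp n w) {p : ℕ} (hp : p.Prime) (k : P) :
    (p : AI) ∣ DI hw T k ^ p - DI hw T (p • k) := by
  have h := frob_sum hp T (fun h => W hw h k)
  simp only [W_pow] at h
  rwa [← DI_eq, ← DI_eq] at h

theorem DI_mul (hw : Symp n w) (hT : Para n w T) (k : P) :
    DI hw T k * DI hw T (-k) = ((a w T k : ℕ) : AI) ^ 2 := by
  apply Subtype.ext
  have h1 : D w T k * D w T (-k) = ((a w T k : ℂ)) ^ 2 := by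
    rw [hw.D_neg, Complex.mul_conj, Complex.normSq_eq_norm_sq, norm_eq_a hw hT]
    push_cast
    rfl
  push_cast
  exact h1

theorem DI_sub_sq (hw : Symp n w) (hT : Para n w T) {k : P} (hk : k ∈ S T) (h0 : k ≠ 0) :
    (DI hw T k - DI hw T (-k)) ^ 2 = ((-(n * (4 * a w T k - n)) : ℤ) : AI) := by
  apply Subtype.ext
  have h1 : D w T k - D w T (-k) = ((2 * (D w T k).im : ℝ) : ℂ) * Complex.I := by
    rw [hw.D_neg]
    exact Complex.sub_conj _
  have h2 := im_sq hw hT hk h0
  have h3 : (D w T k - D w T (-k)) ^ 2 = ((-(n * (4 * a w T k - n)) : ℝ) : ℂ) := by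
    rw [h1, mul_pow, Complex.I_sq, ← h2]
    push_cast
    ring
  push_cast
  rw [show ((DI hw T k : AI) : ℂ) = D w T k from rfl,
    show ((DI hw T (-k) : AI) : ℂ) = D w T (-k) from rfl, h3,
    show ((4 : AI) : ℂ) = 4 from rfl]
  push_cast
  ring

theorem dvd_a_smul (hw : Symp n w) (hT : Para n w T) {p n' : ℕ} (hp : p.Prime) (h2 : p ≠ 2)
    (hn : n = p * n') (hcop : Nat.Coprime p n') (k : P) (hk : n' • k = 0) : p ∣ a w T k := by
  have hp4 : Nat.Coprime p 4 := by
    have h3 : Nat.Coprime p 2 := (Nat.coprime_primes hp Nat.prime_two).mpr h2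
    exact Nat.Coprime.pow_right 2 h3
  by_cases hS : k ∈ S T
  swap
  · rw [(a_eq_zero_iff hw hT k).mpr hS]
    exact dvd_zero _
  by_cases h0 : k = 0
  · rw [h0, a_zero hw]
    have h3 : p ∣ 4 * T.card := by
      rw [hT.card, hn]
      exact ⟨n' * (p * n' + 1), by ring⟩
    exact hp4.dvd_of_dvd_mul_left h3
  have hn' : 0 < n' := by
    rcases Nat.eq_zero_or_pos n' with h | h
    · rw [h, mul_zero] at hn
      exact absurd hn hw.pos.ne'
    · exact h
  set X := DI hw T k - DI hw T (-k) with hX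
  have hX2 := DI_sub_sq hw hT hS h0
  rw [← hX] at hX2
  have hF : ∀ j : ℕ, (p : AI) ∣ X ^ (p ^ j) - (DI hw T ((p ^ j) • k) - DI hw T (-((p ^ j) • k))) := by
    intro j
    induction j with
    | zero => simp [hX]
    | succ j ih =>
      set Y := DI hw T ((p ^ j) • k) with hY
      set Y' := DI hw T (-((p ^ j) • k)) with hY'
      have h3 : (p : AI) ∣ (X ^ (p ^ j)) ^ p - (Y - Y') ^ p := ih.trans (sub_dvd_pow_sub_pow _ _ _)
      have h4 := frob_sub hp Y Y'
      have h5 := frob_DI (T := T) hw hp ((p ^ j) • k)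
      have h6 := frob_DI (T := T) hw hp (-((p ^ j) • k))
      rw [← hY] at h5
      rw [← hY'] at h6
      have h7 : X ^ (p ^ (j + 1)) - (DI hw T ((p ^ (j + 1)) • k) - DI hw T (-((p ^ (j + 1)) • k))) =
          ((X ^ (p ^ j)) ^ p - (Y - Y') ^ p) + ((Y - Y') ^ p - (Y ^ p - Y' ^ p)) +
          (Y ^ p - DI hw T (p • (p ^ j) • k)) - (Y' ^ p - DI hw T (p • -((p ^ j) • k))) := by
        rw [← pow_mul, ← pow_succ, smul_neg, smul_smul, ← pow_succ']
        ring
      rw [h7]
      exact dvd_sub (dvd_add (dvd_add h3 h4) h5) h6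
  set f := n'.totient with hf
  have hfpos : 0 < f := Nat.totient_pos.mpr hn'
  have hpf : (p ^ f) • k = k := by
    have h3 : p ^ f ≡ 1 [MOD n'] := Nat.ModEq.pow_totient hcop
    have h4 : ∀ c : ℕ, c • k = (c % n') • k := by
      intro c
      conv_lhs => rw [← Nat.div_add_mod c n', add_smul, mul_comm, mul_smul, hk, smul_zero,
        zero_add]
    rw [h4, h3, ← h4, one_smul]
  have h3 := hF f
  rw [hpf, ← hX] at h3
  have hpf2 : 2 ≤ p ^ f := hp.two_le.trans (Nat.le_self_pow hfpos.ne' p)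
  have hpX2 : (p : AI) ∣ X ^ 2 := by
    rw [hX2, hn]
    exact ⟨-(n' * (4 * a w T k - (p * n' : ℕ))), by push_cast; ring⟩
  have h4 : (p : AI) ∣ X ^ (p ^ f) := hpX2.trans (pow_dvd_pow X hpf2)
  have h5 : (p : AI) ∣ X := by
    have := dvd_sub h4 h3
    rwa [sub_sub_cancel] at this
  have h6 : ((p ^ 2 : ℕ) : AI) ∣ ((-(n * (4 * a w T k - n)) : ℤ) : AI) := by
    rw [← hX2]
    push_cast
    exact pow_dvd_pow_of_dvd h5 2
  have h7 := int_dvd (pow_ne_zero 2 hp.ne_zero) _ h6
  rw [dvd_neg, hn] at h7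
  push_cast at h7
  have h8 : (p : ℤ) ∣ n' * (4 * a w T k - p * n') := by
    have hp0 : (p : ℤ) ≠ 0 := by exact_mod_cast hp.ne_zero
    obtain ⟨c, hc⟩ := h7
    refine ⟨c, ?_⟩
    have h9 : (p : ℤ) * (n' * (4 * a w T k - p * n')) = p * (p * c) := by linear_combination hc
    exact mul_left_cancel₀ hp0 h9
  have h9 : IsCoprime (p : ℤ) n' := Nat.isCoprime_iff_coprime.mpr hcop
  have h10 := h9.dvd_of_dvd_mul_left h8
  have h11 : (p : ℤ) ∣ 4 * a w T k := by
    have := dvd_add h10 (Dvd.intro (n' : ℤ) rfl : (p : ℤ) ∣ p * n')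
    rwa [sub_add_cancel] at this
  have h12 : p ∣ 4 * a w T k := by exact_mod_cast h11
  exact hp4.dvd_of_dvd_mul_left h12

/-- If `p` divides `n` exactly once then it divides all the numbers `a k`. -/
theorem dvd_a (hw : Symp n w) (hT : Para n w T) {p n' : ℕ} (hp : p.Prime) (h2 : p ≠ 2)
    (hn : n = p * n') (hcop : Nat.Coprime p n') (k : P) : p ∣ a w T k := by
  have h1 : p ∣ a w T (p • k) :=
    dvd_a_smul hw hT hp h2 hn hcop (p • k) (by rw [smul_smul, mul_comm, ← hn, hw.tors])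
  have h3 := frob_DI (T := T) hw hp k
  have h4 := frob_DI (T := T) hw hp (-k)
  have h5 : (p : AI) ∣ (((a w T k : ℕ) : AI) ^ 2) ^ p - ((a w T (p • k) : ℕ) : AI) ^ 2 := by
    rw [← DI_mul hw hT, ← DI_mul hw hT, mul_pow]
    have h6 : DI hw T k ^ p * DI hw T (-k) ^ p - DI hw T (p • k) * DI hw T (-(p • k)) =
        (DI hw T k ^ p - DI hw T (p • k)) * DI hw T (-k) ^ p +
        DI hw T (p • k) * (DI hw T (-k) ^ p - DI hw T (p • -k)) := by
      rw [smul_neg]
      ring
    rw [h6]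
    exact dvd_add (h3.mul_right _) (h4.mul_left _)
  have h6 : (p : AI) ∣ ((a w T (p • k) : ℕ) : AI) ^ 2 := by
    obtain ⟨c, hc⟩ := h1
    rw [hc]
    exact ⟨p * c ^ 2, by push_cast; ring⟩
  have h7 : (p : AI) ∣ (((a w T k : ℤ) ^ 2) ^ p : ℤ) := by
    have := dvd_add h5 h6
    rw [sub_add_cancel] at this
    push_cast at this ⊢
    exact this
  have h8 := int_dvd hp.ne_zero _ h7
  rw [← pow_mul] at h8
  have h9 : p ∣ a w T k ^ (2 * p) := by exact_mod_cast h8
  exact hp.dvd_of_dvd_pow h9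

/-- Squarefree odd orders. -/
theorem squarefree_le (hw : Symp n w) (hT : Para n w T) (hodd : Odd n) (hsq : Squarefree n) :
    n ≤ 3 := by
  by_contra hcon
  push Not at hcon
  have hdiv : ∀ k, n ∣ a w T k := by
    intro k
    rw [← Nat.prod_primeFactors_of_squarefree hsq]
    apply Finset.prod_primes_dvd
    · intro p hp
      exact (Nat.prime_of_mem_primeFactors hp).prime
    · intro p hp
      have hp1 := Nat.prime_of_mem_primeFactors hp
      obtain ⟨n', hn'⟩ := Nat.dvd_of_mem_primeFactors hp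
      have hcop : Nat.Coprime p n' := by
        rw [hn'] at hsq
        exact Nat.coprime_of_squarefree_mul hsq
      refine dvd_a hw hT hp1 ?_ hn' hcop k
      rintro rfl
      rw [hn'] at hodd
      exact (Nat.not_even_iff_odd.mpr hodd) ⟨n', by ring⟩
  have h1 : ∀ k ∈ (S T).erase 0, (n : ℤ) ≤ a w T k := by
    intro k hk
    have hk' := (Finset.mem_erase.mp hk).2
    have h2 : a w T k ≠ 0 := by
      intro h3
      exact ((a_eq_zero_iff hw hT k).mp h3) hk'
    exact_mod_cast Nat.le_of_dvd (Nat.pos_of_ne_zero h2) (hdiv k)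
  have h2 := Finset.sum_le_sum h1
  rw [Finset.sum_const, nsmul_eq_mul, Finset.card_erase_of_mem hT.zero_mem_S] at h2
  have h3 : (a w T 0 : ℤ) + ∑ k ∈ (S T).erase 0, (a w T k : ℤ) = ∑ k ∈ S T, (a w T k : ℤ) :=
    Finset.add_sum_erase _ (fun k => (a w T k : ℤ)) hT.zero_mem_S
  have h4 : ∑ k, (a w T k : ℤ) = ∑ k ∈ S T, (a w T k : ℤ) := by
    symm
    apply Finset.sum_subset (Finset.subset_univ _)
    intro k _ hk
    rw [(a_eq_zero_iff hw hT k).mpr hk]
    rfl
  rw [← h4, sum_univ hw hT, a_zero hw] at h3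
  have h5 := card_S hT
  rw [hw.card] at h5
  have h6 : 0 < (S T).card := Finset.card_pos.mpr ⟨0, hT.zero_mem_S⟩
  rw [Nat.cast_sub h6] at h2
  have h7 := hT.card
  zify at h7 hcon
  push_cast at h2 h5
  rw [h5] at h2
  nlinarith

end Para

end Pool.Agent.SicPara
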