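import Pool.Agent.Lib.MP_d0f9e0_co.S1.Even2
import Pool.Agent.Lib.MP_d0f9e0_co.Ab.OddKill

/-! # Groups without parabolic sets

A finite abelian group of order at least four which does not contain `ℤ/4 × ℤ/4` has no parabolic
set with the two twisted identities. -/

set_option autoImplicit false
set_option linter.unusedSectionVars false

namespace Pool.Agent.SicAb

open Finset

variable {A : Type} [AddCommGroup A] [Fintype A] [DecidableEq A]

/-- The second twisted identity: `1_T # 1_T = 0`. -/
def NilId (T : Finset (PS A)) : Prop :=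
  ∀ s : PS A, ∑ h ∈ T.filter (fun h => s - h ∈ T), pr s h = 0

theorem noPara_of_tw (h4 : 4 ≤ Fintype.card A) (htw : (tw A).card < 4) :
    ¬ ∃ T : Finset (PS A), IsPara T ∧ ProjId T ∧ NilId T := by
  rintro ⟨T, hT, hP, hX⟩
  rcases Nat.even_or_odd (Fintype.card A) with he | ho
  · exact not_even_of_tw hT hP htw he
  · have h1 := para_odd hT
      (fun s => by
        have := congrArg (fun z : Bz => (z : ℂ)) (hP s)
        simpa only [AddSubmonoidClass.coe_finsetSum] using this)
      (fun s => by
        have := congrArg (fun z : Bz => (z : ℂ)) (hX s)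
        simpa only [AddSubmonoidClass.coe_finsetSum, ZeroMemClass.coe_zero] using this) ho
    omega

/-- In a cyclic group at most two elements have order at most two. -/
theorem tw_card_le_of_cyclic [IsAddCyclic A] : (tw A).card ≤ 2 := by
  refine le_trans (Finset.card_le_card ?_) (card_two_torsion_le (A := A))
  intro a ha
  unfold tw at ha
  rw [Finset.mem_filter] at ha ⊢
  exact ⟨ha.1, ha.2.1⟩

/-- In a group of odd order no element has order two. -/
theorem tw_card_of_odd (ho : Odd (Fintype.card A)) : (tw A).card = 1 := by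
  rw [Finset.card_eq_one]
  refine ⟨0, ?_⟩
  ext a
  rw [Finset.mem_singleton]
  unfold tw
  rw [Finset.mem_filter]
  constructor
  · rintro ⟨-, ha, -⟩
    have h1 : addOrderOf a ∣ 2 := addOrderOf_dvd_of_nsmul_eq_zero (by rw [two_nsmul]; exact ha)
    have h2 : addOrderOf a ∣ Fintype.card A := addOrderOf_dvd_card
    have h3 : addOrderOf a ∣ Nat.gcd 2 (Fintype.card A) := Nat.dvd_gcd h1 h2
    have h4 : Nat.gcd 2 (Fintype.card A) = 1 := Nat.coprime_two_left.mpr ho
    rw [h4, Nat.dvd_one] at h3
    exact AddMonoid.addOrderOf_eq_one_iff.mp h3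
  · rintro rfl
    exact ⟨Finset.mem_univ _, add_zero _, 0, (add_zero _).symm⟩

end Pool.Agent.SicAb
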