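import Pool.Agent.Lib.MP_d0f9e0_co.Ab.Para

/-! # The trace of the projection of a parabolic set

The displacement operators of the doubled phase space act on the functions on `A`; a parabolic set
`T` which satisfies the projection identity gives an idempotent matrix of size `n` with trace
`(n + t) / 4`, where `t` is the number of solutions of `2 a = 0` in `A`. -/

set_option autoImplicit false
set_option linter.unusedSectionVars false

namespace Pool.Agent.SicAb

open Finset Matrix

variable {A : Type} [AddCommGroup A] [Fintype A] [DecidableEq A]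

/-- The operators `(B_h v)(x) = χ(x - a) v(x - 2 a)` for `h = (a, χ)`. -/
noncomputable def Bm (h : PS A) : Matrix A A ℂ :=
  fun x z => if x = z + (h.1 + h.1) then h.2 (x - h.1) else 0

/-- The parity. -/
noncomputable def parm (A : Type) [AddCommGroup A] [DecidableEq A] : Matrix A A ℂ :=
  fun x z => if x = -z then 1 else 0

theorem wp_eq (h k : PS A) : wp h k = h.2 k.1 * k.2 (-h.1) := rfl

theorem wp_self (h : PS A) : wp h h = 1 := by
  rw [wp_eq, ← AddChar.map_add_eq_mul, add_neg_cancel, AddChar.map_zero_eq_one]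

theorem Bm_mul (h k : PS A) : Bm h * Bm k = wp h k • Bm (h + k) := by
  ext x z
  rw [Matrix.mul_apply, Finset.sum_eq_single (x - (h.1 + h.1))]
  · rw [Matrix.smul_apply, smul_eq_mul, wp_eq]
    unfold Bm
    rw [if_pos (by abel)]
    by_cases hx : x = z + (k.1 + k.1) + (h.1 + h.1)
    · rw [if_pos (by rw [hx]; abel), if_pos (by rw [hx, Prod.fst_add]; abel)]
      rw [Prod.fst_add, Prod.snd_add, AddChar.add_apply]
      have e1 : x - h.1 = k.1 + (x - (h.1 + k.1)) := by abel
      have e2 : x - (h.1 + h.1) - k.1 = -h.1 + (x - (h.1 + k.1)) := by abel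
      rw [e2, AddChar.map_add_eq_mul]
      nth_rewrite 1 [e1]
      rw [AddChar.map_add_eq_mul]
      ring
    · rw [if_neg (fun h0 => hx (by rw [← h0]; abel)), if_neg, mul_zero, mul_zero]
      intro h0
      apply hx
      rw [h0, Prod.fst_add]
      abel
  · intro y _ hy
    unfold Bm
    rw [if_neg, zero_mul]
    intro h0
    exact hy (by rw [h0]; abel)
  · intro h0
    exact absurd (Finset.mem_univ _) h0

theorem parm_mul_parm : parm A * parm A = 1 := by
  ext x z
  rw [Matrix.mul_apply, Finset.sum_eq_single (-z)]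
  · unfold parm
    rw [neg_neg, if_pos rfl, mul_one, Matrix.one_apply]
  · intro y _ hy
    unfold parm
    rw [if_neg hy, mul_zero]
  · intro h0
    exact absurd (Finset.mem_univ _) h0

theorem parm_Bm_parm (h : PS A) : parm A * Bm h * parm A = Bm (-h) := by
  ext x z
  rw [Matrix.mul_apply, Finset.sum_eq_single (-z)]
  · rw [Matrix.mul_apply, Finset.sum_eq_single (-x)]
    · unfold parm Bm
      rw [neg_neg, if_pos rfl, if_pos rfl, one_mul, mul_one, Prod.fst_neg, Prod.snd_neg,
        AddChar.neg_apply']
      have e1 : (-x = -z + (h.1 + h.1)) ↔ (x = z + (-h.1 + -h.1)) := by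
        constructor
        · intro h0
          rw [← neg_neg x, h0]
          abel
        · intro h0
          rw [h0]
          abel
      by_cases hx : x = z + (-h.1 + -h.1)
      · rw [if_pos hx, if_pos (e1.mpr hx)]
        have e2 : -x - h.1 = -(x - -h.1) := by abel
        rw [e2, AddChar.map_neg_eq_inv]
      · rw [if_neg hx, if_neg (fun h0 => hx (e1.mp h0))]
    · intro y _ hy
      unfold parm
      rw [if_neg, zero_mul]
      intro h0
      exact hy (by rw [h0, neg_neg])
    · intro h0
      exact absurd (Finset.mem_univ _) h0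
  · intro y _ hy
    unfold parm
    rw [if_neg hy, mul_zero]
  · intro h0
    exact absurd (Finset.mem_univ _) h0

theorem sum_Bm : ∑ h : PS A, Bm h = (Fintype.card A : ℂ) • parm A := by
  ext x z
  rw [Matrix.sum_apply, Matrix.smul_apply, smul_eq_mul, Fintype.sum_prod_type]
  have e1 : ∀ a : A, ∑ χ : AddChar A ℂ, Bm ((a, χ) : PS A) x z =
      if a = x then (if x = z + (a + a) then (Fintype.card A : ℂ) else 0) else 0 := by
    intro a
    unfold Bm
    by_cases h0 : x = z + (a + a)
    · simp only
      rw [Finset.sum_congr rfl (fun χ _ => if_pos h0), AddChar.sum_apply_eq_ite, if_pos h0]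
      by_cases h1 : a = x
      · rw [if_pos h1, if_pos (by rw [h1, sub_self])]
      · rw [if_neg h1, if_neg (fun h2 => h1 (sub_eq_zero.mp h2).symm)]
    · simp only
      rw [Finset.sum_congr rfl (fun χ _ => if_neg h0), if_neg h0, Finset.sum_const_zero, ite_self]
  rw [Finset.sum_congr rfl (fun a _ => e1 a), Finset.sum_ite_eq' Finset.univ x,
    if_pos (Finset.mem_univ _)]
  unfold parm
  by_cases h0 : x = -z
  · rw [if_pos h0, if_pos (by rw [h0]; abel), mul_one]
  · rw [if_neg h0, if_neg, mul_zero]
    intro h1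
    apply h0
    have h2 : x + 0 = x + (z + x) := by
      rw [add_zero]
      nth_rewrite 1 [h1]
      abel
    exact eq_neg_of_add_eq_zero_right (add_left_cancel h2).symm

/-- The sum of the operators over `T`. -/
noncomputable def Ym (T : Finset (PS A)) : Matrix A A ℂ := ∑ h ∈ T, Bm h

theorem Ym_par (T : Finset (PS A)) :
    (Fintype.card A : ℂ) • (Ym T * parm A) = ∑ s : PS A, (∑ h ∈ T, wp h s) • Bm s := by
  rw [← Matrix.mul_smul, ← sum_Bm]
  unfold Ym
  rw [Finset.sum_mul_sum]
  have e1 : ∀ h ∈ T, ∑ k, Bm h * Bm k = ∑ s, wp h s • Bm s := by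
    intro h _
    rw [← Equiv.sum_comp (Equiv.addLeft h) (fun s => wp h s • Bm s)]
    refine Finset.sum_congr rfl fun k _ => ?_
    rw [Bm_mul, Equiv.coe_addLeft, wp_symp.add_right, wp_self, one_mul]
  rw [Finset.sum_congr rfl e1, Finset.sum_comm]
  exact Finset.sum_congr rfl fun s _ => by rw [Finset.sum_smul]

theorem Ym_neg (T : Finset (PS A)) :
    Ym T * (parm A * Ym T * parm A) =
      ∑ s : PS A, (∑ h ∈ T.filter (fun h => h - s ∈ T), wp h s) • Bm s := by
  have e0 : parm A * Ym T * parm A = ∑ k ∈ T, Bm (-k) := by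
    unfold Ym
    rw [Finset.mul_sum, Finset.sum_mul]
    exact Finset.sum_congr rfl fun k _ => parm_Bm_parm k
  rw [e0]
  unfold Ym
  rw [Finset.sum_mul_sum]
  have e1 : ∀ h ∈ T, ∑ k ∈ T, Bm h * Bm (-k) =
      ∑ s : PS A, if h - s ∈ T then wp h s • Bm s else 0 := by
    intro h _
    rw [← Equiv.sum_comp (Equiv.subLeft h) (fun s => if h - s ∈ T then wp h s • Bm s else 0)]
    rw [← Finset.sum_filter_add_sum_filter_not Finset.univ (fun k => k ∈ T)]
    have e2 : ∑ k ∈ Finset.univ.filter (fun k => ¬ k ∈ T),
        (fun s => if h - s ∈ T then wp h s • Bm s else 0) (Equiv.subLeft h k) = 0 := by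
      refine Finset.sum_eq_zero fun k hk => ?_
      rw [Finset.mem_filter] at hk
      simp only [Equiv.subLeft_apply, sub_sub_cancel]
      rw [if_neg hk.2]
    rw [e2, add_zero, Finset.filter_mem_eq_inter, Finset.univ_inter]
    refine Finset.sum_congr rfl fun k hk => ?_
    simp only [Equiv.subLeft_apply, sub_sub_cancel]
    rw [if_pos hk, Bm_mul, ← sub_eq_add_neg]
    congr 1
    rw [sub_eq_add_neg, wp_symp.add_right, wp_self, one_mul]
  rw [Finset.sum_congr rfl e1, Finset.sum_comm]
  refine Finset.sum_congr rfl fun s _ => ?_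
  rw [← Finset.sum_filter, Finset.sum_smul]

/-- The projection identity of a set `T`. -/
def ProjId (T : Finset (PS A)) : Prop :=
  ∀ s : PS A, ∑ h ∈ T.filter (fun h => h - s ∈ T), pr h s = ∑ h ∈ T, pr h s

theorem ProjId.wp_form {T : Finset (PS A)} (hP : ProjId T) (s : PS A) :
    ∑ h ∈ T.filter (fun h => h - s ∈ T), wp h s = ∑ h ∈ T, wp h s := by
  have h1 := congrArg (fun z : Bz => (starRingEnd ℂ) (z : ℂ)) (hP s)
  simp only [AddSubmonoidClass.coe_finsetSum, map_sum] at h1
  have h2 : ∀ h : PS A, (starRingEnd ℂ) ((pr h s : Bz) : ℂ) = wp h s := by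
    intro h
    have h3 : ((pr h s : Bz) : ℂ) = wp s h := rfl
    rw [h3, wp_symp.conj_eq, ← wp_symp.swap' s h]
  simp only [h2] at h1
  exact h1

theorem card_pos' : (Fintype.card A : ℂ) ≠ 0 := by
  have : 0 < Fintype.card A := Fintype.card_pos_iff.mpr ⟨0⟩
  exact_mod_cast this.ne'

theorem Ym_idem {T : Finset (PS A)} (hP : ProjId T) :
    Ym T * parm A * (Ym T * parm A) = (Fintype.card A : ℂ) • (Ym T * parm A) := by
  have h1 : ∑ s : PS A, (∑ h ∈ T.filter (fun h => h - s ∈ T), wp h s) • Bm s =
      ∑ s : PS A, (∑ h ∈ T, wp h s) • Bm s :=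
    Finset.sum_congr rfl fun s _ => by rw [hP.wp_form s]
  rw [Ym_par, ← h1, ← Ym_neg]
  simp only [Matrix.mul_assoc]

theorem trace_Ym (T : Finset (PS A)) :
    (Ym T * parm A).trace =
      ∑ u ∈ Finset.univ.filter (fun u : A => u + u = 0), SicPara.D wp T ((u, 0) : PS A) := by
  have e1 : ∀ h : PS A, (Bm h * parm A).trace =
      ∑ u ∈ Finset.univ.filter (fun u : A => u + u = 0), wp h ((u, 0) : PS A) := by
    intro h
    unfold Matrix.trace
    rw [← Equiv.sum_comp (Equiv.addRight h.1), Finset.sum_filter]
    refine Finset.sum_congr rfl fun u _ => ?_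
    rw [Equiv.coe_addRight, Matrix.diag_apply, Matrix.mul_apply,
      Finset.sum_eq_single (-(u + h.1))]
    · unfold parm Bm
      rw [if_pos rfl, mul_one]
      by_cases h0 : u + u = 0
      · rw [if_pos h0, if_pos, wp_eq]
        · simp
        · have h1 : u = -u := eq_neg_of_add_eq_zero_left h0
          nth_rewrite 1 [h1]
          abel_nf
      · rw [if_neg h0, if_neg]
        intro h1
        apply h0
        have h2 : u + u + (h.1 + h.1) = 0 + (h.1 + h.1) := by
          calc u + u + (h.1 + h.1) = (u + h.1) + (u + h.1) := by abel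
            _ = (-(u + h.1) + (h.1 + h.1)) + (u + h.1) := by rw [← h1]
            _ = 0 + (h.1 + h.1) := by abel
        exact add_right_cancel h2
    · intro y _ hy
      unfold parm
      rw [if_neg, mul_zero]
      intro h0
      exact hy h0
    · intro h0
      exact absurd (Finset.mem_univ _) h0
  unfold Ym
  rw [Finset.sum_mul, Matrix.trace_sum, Finset.sum_congr rfl fun h _ => e1 h, Finset.sum_comm]
  rfl

/-- The trace of an idempotent matrix is a natural number. -/
theorem trace_idem {ι : Type*} [Fintype ι] [DecidableEq ι] (E : Matrix ι ι ℂ) (hE : E * E = E) :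
    ∃ r : ℕ, E.trace = r := by
  have h1 : IsIdempotentElem (Matrix.toLin' E) := by
    unfold IsIdempotentElem
    rw [Module.End.mul_eq_comp, ← Matrix.toLin'_mul, hE]
  have h2 := LinearMap.IsProj.trace (LinearMap.IsIdempotentElem.isProj_range _ h1)
  rw [Matrix.trace_toLin'_eq] at h2
  exact ⟨_, h2⟩

/-- The projection identity gives a divisibility. -/
theorem four_dvd_of_proj {T : Finset (PS A)} (hT : IsPara T) (hP : ProjId T) :
    4 ∣ Fintype.card A + (Finset.univ.filter (fun u : A => u + u = 0)).card := by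
  have hT' := hT.toPara
  have hn := card_pos' (A := A)
  set n := Fintype.card A with hndef
  have hE : (((n : ℂ)⁻¹) • (Ym T * parm A)) * (((n : ℂ)⁻¹) • (Ym T * parm A)) =
      ((n : ℂ)⁻¹) • (Ym T * parm A) := by
    rw [Matrix.smul_mul, Matrix.mul_smul, Ym_idem hP, smul_smul, smul_smul, ← hndef,
      mul_assoc, inv_mul_cancel₀ hn, mul_one]
  obtain ⟨r, hr⟩ := trace_idem _ hE
  rw [Matrix.trace_smul, trace_Ym, smul_eq_mul] at hr
  have h0 : (0 : A) ∈ Finset.univ.filter (fun u : A => u + u = 0) :=
    Finset.mem_filter.mpr ⟨Finset.mem_univ _, add_zero 0⟩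
  rw [← Finset.add_sum_erase _ _ h0] at hr
  have h1 : ∀ u ∈ (Finset.univ.filter (fun u : A => u + u = 0)).erase 0,
      SicPara.D wp T ((u, 0) : PS A) = (n : ℂ) / 4 := by
    intro u hu
    rw [Finset.mem_erase, Finset.mem_filter] at hu
    have h2 : ((u, 0) : PS A) ≠ 0 := fun h => hu.1 (congrArg Prod.fst h)
    have h3 : (2 : ℕ) • ((u, 0) : PS A) = 0 := by
      rw [two_nsmul]
      exact Prod.ext hu.2.2 (add_zero _)
    have h4 := (SicPara.Para.involution wp_symp hT' h2 h3).2.1
    rw [← h4]
    ring
  rw [Finset.sum_congr rfl h1, Finset.sum_const, Finset.card_erase_of_mem h0, nsmul_eq_mul] at hr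
  have h2 : SicPara.D wp T ((0, 0) : PS A) = T.card := wp_symp.D_zero T
  have h3 := hT'.card_T
  rw [h2] at hr
  have hpos : 0 < (Finset.univ.filter (fun u : A => u + u = 0)).card := Finset.card_pos.mpr ⟨0, h0⟩
  set t := (Finset.univ.filter (fun u : A => u + u = 0)).card with ht
  rw [Nat.cast_sub hpos, Nat.cast_one] at hr
  have h4 : (n : ℂ) + t = 4 * r := by
    have h5 : (T.card : ℂ) = n * (n + 1) / 4 := by
      rw [← h3]
      ring
    rw [h5] at hr
    rw [← hr]
    field_simp
    ring
  refine ⟨r, ?_⟩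
  exact_mod_cast h4

/-- If the order is even, the number of solutions of `2 a = 0` is divisible by `4`. -/
theorem four_dvd_two_torsion {T : Finset (PS A)} (hT : IsPara T) (hP : ProjId T)
    (he : Even (Fintype.card A)) :
    4 ∣ (Finset.univ.filter (fun u : A => u + u = 0)).card := by
  have h1 := four_dvd_of_proj hT hP
  have h2 : 4 ∣ Fintype.card A := by
    have h3 := hT.card
    have h4 : Nat.Coprime 4 (Fintype.card A + 1) := by
      have : Nat.Coprime 2 (Fintype.card A + 1) := by
        rw [Nat.coprime_two_left]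
        exact he.add_one
      exact Nat.Coprime.pow_left 2 this
    exact h4.dvd_of_dvd_mul_right ⟨T.card, h3.symm⟩
  exact (Nat.dvd_add_right h2).mp h1

/-- In a cyclic group there are at most two solutions of `2 a = 0`. -/
theorem card_two_torsion_le [IsAddCyclic A] :
    (Finset.univ.filter (fun u : A => u + u = 0)).card ≤ 2 := by
  have h1 := IsAddCyclic.card_nsmul_eq_zero_le (α := A) (n := 2) (by norm_num)
  refine le_trans (Finset.card_le_card ?_) h1
  intro u hu
  rw [Finset.mem_filter] at hu ⊢
  exact ⟨hu.1, by rw [two_nsmul]; exact hu.2⟩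

/-- No parabolic set with the projection identity over a group of even order with at most two
solutions of `2 a = 0`. -/
theorem not_even_of_proj {T : Finset (PS A)} (hT : IsPara T) (hP : ProjId T)
    (h2 : (Finset.univ.filter (fun u : A => u + u = 0)).card ≤ 2) :
    ¬ Even (Fintype.card A) := by
  intro he
  have h1 := four_dvd_two_torsion hT hP he
  have h0 : (0 : A) ∈ Finset.univ.filter (fun u : A => u + u = 0) :=
    Finset.mem_filter.mpr ⟨Finset.mem_univ _, add_zero 0⟩
  have hpos : 0 < (Finset.univ.filter (fun u : A => u + u = 0)).card := Finset.card_pos.mpr ⟨0, h0⟩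
  have := Nat.le_of_dvd hpos h1
  omega

end Pool.Agent.SicAb
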