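import Pool.Agent.Lib.MP_d0f9e0_co.S1.Even

/-! # The traces on the functions supported on `2 A`

A parabolic set `T` with the projection identity gives, in every algebra with a family `B` such
that `B h * B k = w h k • B (h + k)`, an idempotent. For the operators on the functions supported
on `2 A`, twisted by a character, its trace is `(|2 A| + ∑ ψ a) / 4`, the sum over the `a` with
`2 a = 0`, `a + b ∈ 2 A`. If the order of `A` is even this forces `4` to divide the order of
`A[2] ∩ 2 A`, so that `A` contains `ℤ/4 × ℤ/4`. -/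

set_option autoImplicit false
set_option linter.unusedSectionVars false

namespace Pool.Agent.SicAb

open Finset Matrix

variable {A : Type} [AddCommGroup A] [Fintype A] [DecidableEq A]

section abstract

variable {R : Type*} [Ring R] [Algebra ℂ R]

theorem fam_sum_mul {B : PS A → R} (hB : ∀ h k, B h * B k = wp h k • B (h + k))
    (T : Finset (PS A)) :
    (∑ h ∈ T, B h) * ∑ h, B h = ∑ s, (∑ h ∈ T, wp h s) • B s := by
  rw [Finset.sum_mul_sum]
  have e1 : ∀ h ∈ T, ∑ k, B h * B k = ∑ s, wp h s • B s := by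
    intro h _
    rw [← Equiv.sum_comp (Equiv.addLeft h) (fun s => wp h s • B s)]
    refine Finset.sum_congr rfl fun k _ => ?_
    rw [hB, Equiv.coe_addLeft, wp_symp.add_right, wp_self, one_mul]
  rw [Finset.sum_congr rfl e1, Finset.sum_comm]
  exact Finset.sum_congr rfl fun s _ => by rw [Finset.sum_smul]

theorem fam_sum_neg {B : PS A → R} (hB : ∀ h k, B h * B k = wp h k • B (h + k))
    (T : Finset (PS A)) :
    (∑ h ∈ T, B h) * ∑ h ∈ T, B (-h) =
      ∑ s, (∑ h ∈ T.filter (fun h => h - s ∈ T), wp h s) • B s := by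
  rw [Finset.sum_mul_sum]
  have e1 : ∀ h ∈ T, ∑ k ∈ T, B h * B (-k) =
      ∑ s : PS A, if h - s ∈ T then wp h s • B s else 0 := by
    intro h _
    rw [← Equiv.sum_comp (Equiv.subLeft h) (fun s => if h - s ∈ T then wp h s • B s else 0)]
    rw [← Finset.sum_filter_add_sum_filter_not Finset.univ (fun k => k ∈ T)]
    have e2 : ∑ k ∈ Finset.univ.filter (fun k => ¬ k ∈ T),
        (fun s => if h - s ∈ T then wp h s • B s else 0) (Equiv.subLeft h k) = 0 := by
      refine Finset.sum_eq_zero fun k hk => ?_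
      rw [Finset.mem_filter] at hk
      simp only [Equiv.subLeft_apply, sub_sub_cancel]
      rw [if_neg hk.2]
    rw [e2, add_zero, Finset.filter_mem_eq_inter, Finset.univ_inter]
    refine Finset.sum_congr rfl fun k hk => ?_
    simp only [Equiv.subLeft_apply, sub_sub_cancel]
    rw [if_pos hk, hB, ← sub_eq_add_neg]
    congr 1
    rw [sub_eq_add_neg, wp_symp.add_right, wp_self, one_mul]
  rw [Finset.sum_congr rfl e1, Finset.sum_comm]
  refine Finset.sum_congr rfl fun s _ => ?_
  rw [← Finset.sum_filter, Finset.sum_smul]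

theorem fam_swap {B : PS A → R} (hB : ∀ h k, B h * B k = wp h k • B (h + k)) (k : PS A) :
    (∑ h, B h) * B k = B (-k) * ∑ h, B h := by
  rw [Finset.sum_mul, Finset.mul_sum]
  rw [← Equiv.sum_comp (Equiv.subRight k) (fun h => B h * B k),
    ← Equiv.sum_comp (Equiv.addRight k) (fun h => B (-k) * B h)]
  refine Finset.sum_congr rfl fun s _ => ?_
  simp only [Equiv.subRight_apply, Equiv.coe_addRight]
  rw [hB, hB, sub_add_cancel]
  have e1 : -k + (s + k) = s := by abel
  rw [e1]
  congr 1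
  rw [sub_eq_add_neg, wp_symp.add_left, wp_symp.add_right, wp_symp.neg_left, wp_symp.neg_left,
    wp_self, wp_symp.swap' s k, inv_inv]

theorem fam_sq {B : PS A → R} (hB : ∀ h k, B h * B k = wp h k • B (h + k)) :
    (∑ h, B h) * ∑ h, B h = ((Fintype.card A : ℂ) ^ 2) • B 0 := by
  rw [fam_sum_mul hB, Finset.sum_eq_single 0]
  · rw [wp_symp.sum_left, if_pos rfl]
  · intro s _ hs
    rw [wp_symp.sum_left, if_neg hs, zero_smul]
  · intro h
    exact absurd (Finset.mem_univ _) h

theorem fam_idem {B : PS A → R} (hB : ∀ h k, B h * B k = wp h k • B (h + k))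
    {T : Finset (PS A)} (hP : ProjId T) :
    (∑ s, (∑ h ∈ T, wp h s) • B s) * (∑ s, (∑ h ∈ T, wp h s) • B s) =
      ((Fintype.card A : ℂ) ^ 2) • ∑ s, (∑ h ∈ T, wp h s) • B s := by
  have h1 : ∑ s : PS A, (∑ h ∈ T.filter (fun h => h - s ∈ T), wp h s) • B s =
      ∑ s : PS A, (∑ h ∈ T, wp h s) • B s :=
    Finset.sum_congr rfl fun s _ => by rw [hP.wp_form s]
  have h2 := fam_sum_neg hB T
  rw [h1] at h2
  have h3 := fam_sum_mul hB T
  have h4 : (∑ h, B h) * ∑ h ∈ T, B h = (∑ h ∈ T, B (-h)) * ∑ h, B h := by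
    rw [Finset.mul_sum, Finset.sum_mul]
    exact Finset.sum_congr rfl fun k _ => fam_swap hB k
  have h5 : (∑ h ∈ T, B (-h)) * B 0 = ∑ h ∈ T, B (-h) := by
    rw [Finset.sum_mul]
    refine Finset.sum_congr rfl fun k _ => ?_
    rw [hB, add_zero, wp_symp.zero_right, one_smul]
  calc (∑ s, (∑ h ∈ T, wp h s) • B s) * (∑ s, (∑ h ∈ T, wp h s) • B s)
      = ((∑ h ∈ T, B h) * ∑ h, B h) * ((∑ h ∈ T, B h) * ∑ h, B h) := by rw [h3]
    _ = (∑ h ∈ T, B h) * (((∑ h, B h) * ∑ h ∈ T, B h) * ∑ h, B h) := by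
        simp only [mul_assoc]
    _ = (∑ h ∈ T, B h) * ((∑ h ∈ T, B (-h)) * ((∑ h, B h) * ∑ h, B h)) := by
        rw [h4, mul_assoc (∑ h ∈ T, B (-h))]
    _ = ((Fintype.card A : ℂ) ^ 2) • ((∑ h ∈ T, B h) * ∑ h ∈ T, B (-h)) := by
        rw [fam_sq hB, mul_smul_comm, h5, mul_smul_comm]
    _ = ((Fintype.card A : ℂ) ^ 2) • ∑ s, (∑ h ∈ T, wp h s) • B s := by rw [h2]

end abstract

/-- The indicator of `2 A` as a diagonal matrix. -/
noncomputable def Qm (A : Type) [AddCommGroup A] [Fintype A] [DecidableEq A] : Matrix A A ℂ :=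
  Matrix.diagonal fun x => if ∃ b : A, x = b + b then 1 else 0

theorem Qm_mul_Qm : Qm A * Qm A = Qm A := by
  unfold Qm
  rw [Matrix.diagonal_mul_diagonal]
  congr 1
  funext x
  split_ifs <;> simp

theorem Qm_Bm (h : PS A) : Qm A * Bm h = Bm h * Qm A := by
  ext x z
  unfold Qm
  rw [Matrix.diagonal_mul, Matrix.mul_diagonal]
  unfold Bm
  by_cases h0 : x = z + (h.1 + h.1)
  · have e1 : (∃ b : A, x = b + b) ↔ ∃ b : A, z = b + b := by
      constructor
      · rintro ⟨b, hb⟩
        refine ⟨b - h.1, ?_⟩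
        have : z = x - (h.1 + h.1) := by rw [h0]; abel
        rw [this, hb]
        abel
      · rintro ⟨b, hb⟩
        refine ⟨b + h.1, ?_⟩
        rw [h0, hb]
        abel
    rw [if_pos h0]
    by_cases h1 : ∃ b : A, z = b + b
    · rw [if_pos h1, if_pos (e1.mpr h1), one_mul, mul_one]
    · rw [if_neg h1, if_neg (fun h2 => h1 (e1.mp h2)), zero_mul, mul_zero]
  · rw [if_neg h0, mul_zero, zero_mul]

/-- The twisted operators on the functions supported on `2 A`. -/
noncomputable def Bt (b : A) (ψ : AddChar A ℂ) (h : PS A) : Matrix A A ℂ :=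
  (ψ h.1 * h.2 b) • (Qm A * Bm h)

theorem Bt_mul (b : A) (ψ : AddChar A ℂ) (h k : PS A) :
    Bt b ψ h * Bt b ψ k = wp h k • Bt b ψ (h + k) := by
  unfold Bt
  rw [Matrix.smul_mul, Matrix.mul_smul, smul_smul]
  have e1 : Qm A * Bm h * (Qm A * Bm k) = wp h k • (Qm A * Bm (h + k)) := by
    calc Qm A * Bm h * (Qm A * Bm k) = Qm A * (Bm h * Qm A) * Bm k := by
          simp only [Matrix.mul_assoc]
      _ = Qm A * (Qm A * Bm h) * Bm k := by rw [Qm_Bm]
      _ = (Qm A * Qm A) * (Bm h * Bm k) := by simp only [Matrix.mul_assoc]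
      _ = wp h k • (Qm A * Bm (h + k)) := by rw [Qm_mul_Qm, Bm_mul, Matrix.mul_smul]
  rw [e1, smul_smul, smul_smul]
  congr 1
  rw [Prod.fst_add, Prod.snd_add, AddChar.map_add_eq_mul, AddChar.add_apply]
  ring

/-- The elements `b + b`. -/
noncomputable def dbl (A : Type) [AddCommGroup A] [Fintype A] [DecidableEq A] : Finset A :=
  Finset.univ.filter fun x => ∃ b : A, x = b + b

theorem mem_dbl {x : A} : x ∈ dbl A ↔ ∃ b : A, x = b + b := by
  unfold dbl
  simp

theorem add_mem_dbl {x y : A} (hx : x ∈ dbl A) (hy : y ∈ dbl A) : x + y ∈ dbl A := by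
  rw [mem_dbl] at *
  obtain ⟨b, rfl⟩ := hx
  obtain ⟨c, rfl⟩ := hy
  exact ⟨b + c, by abel⟩

theorem neg_mem_dbl {x : A} (hx : x ∈ dbl A) : -x ∈ dbl A := by
  rw [mem_dbl] at *
  obtain ⟨b, rfl⟩ := hx
  exact ⟨-b, by abel⟩

theorem zero_mem_dbl : (0 : A) ∈ dbl A := mem_dbl.mpr ⟨0, (add_zero 0).symm⟩

/-- Character sums over `2 A`. -/
theorem sum_dbl (χ : AddChar A ℂ) :
    ∑ x ∈ dbl A, χ x = if χ + χ = 0 then ((dbl A).card : ℂ) else 0 := by
  split_ifs with h0
  · rw [Finset.sum_congr rfl (g := fun _ => (1 : ℂ))]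
    · simp
    · intro x hx
      obtain ⟨b, rfl⟩ := mem_dbl.mp hx
      rw [AddChar.map_add_eq_mul, ← AddChar.add_apply, h0]
      rfl
  · have h1 : ∃ b : A, χ (b + b) ≠ 1 := by
      by_contra hcon
      push Not at hcon
      apply h0
      ext b
      rw [AddChar.add_apply, ← AddChar.map_add_eq_mul, hcon b]
      rfl
    obtain ⟨b, hb⟩ := h1
    have h2 : ∑ x ∈ dbl A, χ (x + (b + b)) = ∑ x ∈ dbl A, χ x := by
      refine Finset.sum_bij (fun x _ => x + (b + b)) ?_ ?_ ?_ ?_
      · intro x hx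
        exact add_mem_dbl hx (mem_dbl.mpr ⟨b, rfl⟩)
      · intro x _ y _ hxy
        exact add_right_cancel hxy
      · intro y hy
        exact ⟨y + -(b + b), add_mem_dbl hy (neg_mem_dbl (mem_dbl.mpr ⟨b, rfl⟩)), by abel⟩
      · intro x _
        rfl
    have h3 : χ (b + b) * ∑ x ∈ dbl A, χ x = ∑ x ∈ dbl A, χ x := by
      conv_rhs => rw [← h2]
      rw [Finset.mul_sum]
      refine Finset.sum_congr rfl fun x _ => ?_
      rw [AddChar.map_add_eq_mul χ x (b + b), mul_comm]
    have h4 : (χ (b + b) - 1) * ∑ x ∈ dbl A, χ x = 0 := by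
      rw [sub_mul, one_mul, h3, sub_self]
    exact (mul_eq_zero.mp h4).resolve_left (sub_ne_zero.mpr hb)

/-- Sums over the characters of order two. -/
theorem sum_char_two (a : A) :
    ((dbl A).card : ℂ) * ∑ χ ∈ Finset.univ.filter (fun χ : AddChar A ℂ => χ + χ = 0), χ a =
      if a ∈ dbl A then (Fintype.card A : ℂ) else 0 := by
  have h1 : ((dbl A).card : ℂ) * ∑ χ ∈ Finset.univ.filter (fun χ : AddChar A ℂ => χ + χ = 0), χ a =
      ∑ χ : AddChar A ℂ, (∑ x ∈ dbl A, χ x) * χ a := by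
    rw [Finset.mul_sum, Finset.sum_filter]
    refine Finset.sum_congr rfl fun χ _ => ?_
    rw [sum_dbl]
    split_ifs <;> simp
  rw [h1]
  simp only [Finset.sum_mul]
  rw [Finset.sum_comm]
  have h2 : ∀ x ∈ dbl A, ∑ χ : AddChar A ℂ, χ x * χ a =
      if x = -a then (Fintype.card A : ℂ) else 0 := by
    intro x _
    have h3 : ∀ χ : AddChar A ℂ, χ x * χ a = χ (x + a) := fun χ =>
      (AddChar.map_add_eq_mul χ x a).symm
    rw [Finset.sum_congr rfl fun χ _ => h3 χ, AddChar.sum_apply_eq_ite]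
    simp only [add_eq_zero_iff_eq_neg]
  rw [Finset.sum_congr rfl h2, Finset.sum_ite_eq' (dbl A) (-a)]
  have h3 : (-a ∈ dbl A) ↔ a ∈ dbl A :=
    ⟨fun h => by simpa using neg_mem_dbl h, fun h => neg_mem_dbl h⟩
  simp only [h3]

theorem trace_Bt (b : A) (ψ : AddChar A ℂ) (h : PS A) :
    (Bt b ψ h).trace =
      if h.1 + h.1 = 0 ∧ h.2 + h.2 = 0 then ψ h.1 * h.2 (h.1 + b) * ((dbl A).card : ℂ) else 0 := by
  unfold Bt Qm
  rw [Matrix.trace_smul, smul_eq_mul]
  unfold Matrix.trace
  have e1 : ∀ x : A, (Matrix.diagonal (fun x : A => if ∃ b : A, x = b + b then (1 : ℂ) else 0) *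
      Bm h).diag x = if x ∈ dbl A then (if h.1 + h.1 = 0 then h.2 x * h.2 (-h.1) else 0) else 0 := by
    intro x
    rw [Matrix.diag_apply, Matrix.diagonal_mul]
    unfold Bm
    simp only [mem_dbl]
    by_cases h0 : ∃ b : A, x = b + b
    · rw [if_pos h0, if_pos h0, one_mul]
      by_cases h1 : h.1 + h.1 = 0
      · rw [if_pos h1, if_pos (by rw [h1, add_zero]), sub_eq_add_neg, AddChar.map_add_eq_mul]
      · rw [if_neg h1, if_neg (fun h2 => h1 (left_eq_add.mp h2))]
    · rw [if_neg h0, if_neg h0, zero_mul]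
  rw [Finset.sum_congr rfl fun x _ => e1 x, ← Finset.sum_filter, Finset.filter_mem_eq_inter,
    Finset.univ_inter]
  by_cases h1 : h.1 + h.1 = 0
  · simp only [h1, if_true, true_and]
    rw [← Finset.sum_mul, sum_dbl]
    split_ifs with h2
    · have h3 : -h.1 = h.1 := neg_eq_of_add_eq_zero_left h1
      rw [h3, AddChar.map_add_eq_mul]
      ring
    · simp
  · simp [h1]

/-- The rank formula on the functions supported on `2 A`. -/
theorem exists_rank {T : Finset (PS A)} (hT : IsPara T) (hP : ProjId T) (b : A)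
    (ψ : AddChar A ℂ) :
    ∃ r : ℕ, ((dbl A).card : ℂ) +
      ∑ a ∈ Finset.univ.filter (fun a : A => a + a = 0 ∧ a + b ∈ dbl A), ψ a = 4 * r := by
  classical
  have hT' := hT.toPara
  have hn := card_pos' (A := A)
  obtain ⟨r, hr⟩ := trace_idem (((Fintype.card A : ℂ) ^ 2)⁻¹ • ∑ s, (∑ h ∈ T, wp h s) • Bt b ψ s)
    (by
      rw [Matrix.smul_mul, Matrix.mul_smul, fam_idem (Bt_mul b ψ) hP, smul_smul, smul_smul,
        mul_assoc, inv_mul_cancel₀ (pow_ne_zero 2 hn), mul_one])
  refine ⟨r, ?_⟩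
  rw [Matrix.trace_smul, Matrix.trace_sum, smul_eq_mul] at hr
  -- the value of the sum over `T`
  have hD : ∀ s : PS A, s.1 + s.1 = 0 ∧ s.2 + s.2 = 0 →
      4 * ∑ h ∈ T, wp h s = (Fintype.card A : ℂ) +
        (if s = 0 then (Fintype.card A : ℂ) ^ 2 else 0) := by
    intro s hs
    by_cases h0 : s = 0
    · rw [if_pos h0, h0]
      have h1 : ∑ h ∈ T, wp h (0 : PS A) = T.card := wp_symp.D_zero T
      rw [h1, hT'.card_T]
      ring
    · rw [if_neg h0, add_zero]
      have h3 : (2 : ℕ) • s = 0 := by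
        rw [two_nsmul]
        exact Prod.ext hs.1 hs.2
      exact (SicPara.Para.involution wp_symp hT' h0 h3).2.1
  have e1 : ∀ s : PS A, 4 * ((∑ h ∈ T, wp h s) • Bt b ψ s).trace =
      (if s = 0 then (Fintype.card A : ℂ) ^ 2 * (dbl A).card else 0) +
      (Fintype.card A : ℂ) * (if s.1 + s.1 = 0 then (if s.2 + s.2 = 0 then
        ψ s.1 * (((dbl A).card : ℂ) * s.2 (s.1 + b)) else 0) else 0) := by
    intro s
    rw [Matrix.trace_smul, trace_Bt, smul_eq_mul]
    by_cases hs : s.1 + s.1 = 0 ∧ s.2 + s.2 = 0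
    · rw [if_pos hs, if_pos hs.1, if_pos hs.2, ← mul_assoc, hD s hs]
      by_cases h0 : s = 0
      · rw [if_pos h0, if_pos h0, h0]
        simp
        ring
      · rw [if_neg h0, if_neg h0]
        ring
    · have h0 : s ≠ 0 := by
        rintro rfl
        exact hs ⟨add_zero _, add_zero _⟩
      rw [if_neg hs, if_neg h0]
      by_cases h1 : s.1 + s.1 = 0
      · have h2 : ¬ (s.2 + s.2 = 0) := fun h2 => hs ⟨h1, h2⟩
        rw [if_pos h1, if_neg h2]
        simp
      · rw [if_neg h1]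
        simp
  have e2 : 4 * ∑ s : PS A, ((∑ h ∈ T, wp h s) • Bt b ψ s).trace =
      (Fintype.card A : ℂ) ^ 2 * ((dbl A).card +
        ∑ a ∈ Finset.univ.filter (fun a : A => a + a = 0 ∧ a + b ∈ dbl A), ψ a) := by
    rw [Finset.mul_sum, Finset.sum_congr rfl fun s _ => e1 s, Finset.sum_add_distrib,
      Finset.sum_ite_eq' Finset.univ (0 : PS A), if_pos (Finset.mem_univ _), ← Finset.mul_sum,
      Fintype.sum_prod_type]
    have e3 : ∀ a : A, ∑ χ : AddChar A ℂ, (if a + a = 0 then (if χ + χ = 0 then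
        ψ a * (((dbl A).card : ℂ) * χ (a + b)) else 0) else 0) =
        if a + a = 0 ∧ a + b ∈ dbl A then (Fintype.card A : ℂ) * ψ a else 0 := by
      intro a
      by_cases h1 : a + a = 0
      · simp only [if_pos h1]
        rw [← Finset.sum_filter, ← Finset.mul_sum, ← Finset.mul_sum, sum_char_two]
        by_cases h2 : a + b ∈ dbl A
        · rw [if_pos h2, if_pos ⟨h1, h2⟩, mul_comm]
        · rw [if_neg h2, if_neg (fun h => h2 h.2), mul_zero]
      · simp only [if_neg h1]
        rw [Finset.sum_const_zero, if_neg (fun h => h1 h.1)]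
    rw [Finset.sum_congr rfl fun a _ => e3 a, ← Finset.sum_filter, ← Finset.mul_sum]
    ring
  have e4 : (Fintype.card A : ℂ) ^ 2 * ((dbl A).card +
        ∑ a ∈ Finset.univ.filter (fun a : A => a + a = 0 ∧ a + b ∈ dbl A), ψ a) =
      (Fintype.card A : ℂ) ^ 2 * (4 * r) := by
    rw [← e2, ← hr]
    field_simp
  exact mul_left_cancel₀ (pow_ne_zero 2 hn) e4

/-- The elements of order two which are divisible by two. -/
noncomputable def tw (A : Type) [AddCommGroup A] [Fintype A] [DecidableEq A] : Finset A :=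
  Finset.univ.filter fun a : A => a + a = 0 ∧ ∃ b : A, a = b + b

theorem exists_char_ne {u : A} (hu : u ≠ 0) : ∃ ψ : AddChar A ℂ, ψ u ≠ 1 := by
  by_contra hcon
  push Not at hcon
  have h1 := AddChar.sum_apply_eq_ite u
  rw [if_neg hu, Finset.sum_congr rfl fun χ _ => hcon χ] at h1
  simp at h1

/-- If `A` has even order and a parabolic set with the projection identity, then `4` divides the
number of elements of order at most two which are divisible by two. -/
theorem four_dvd_tw {T : Finset (PS A)} (hT : IsPara T) (hP : ProjId T)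
    (he : Even (Fintype.card A)) : 4 ∣ (tw A).card := by
  have hfil : Finset.univ.filter (fun a : A => a + a = 0 ∧ a + 0 ∈ dbl A) = tw A := by
    unfold tw
    ext a
    rw [Finset.mem_filter, Finset.mem_filter, add_zero, mem_dbl]
  obtain ⟨r0, hr0⟩ := exists_rank hT hP 0 0
  rw [hfil] at hr0
  have h0 : ((dbl A).card : ℂ) + (tw A).card = 4 * r0 := by
    rw [← hr0]
    simp
  have h0' : (dbl A).card + (tw A).card = 4 * r0 := by exact_mod_cast h0
  have hz : (0 : A) ∈ tw A := by
    unfold tw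
    rw [Finset.mem_filter]
    exact ⟨Finset.mem_univ _, add_zero _, 0, (add_zero _).symm⟩
  have hadd : ∀ a ∈ tw A, ∀ b ∈ tw A, a + b ∈ tw A := by
    intro a ha b hb
    unfold tw at *
    rw [Finset.mem_filter] at *
    obtain ⟨-, ha1, a', ha'⟩ := ha
    obtain ⟨-, hb1, b', hb'⟩ := hb
    refine ⟨Finset.mem_univ _, ?_, a' + b', ?_⟩
    · calc a + b + (a + b) = (a + a) + (b + b) := by abel
        _ = 0 := by rw [ha1, hb1, add_zero]
    · rw [ha', hb']
      abel
  by_cases hone : ∀ u ∈ tw A, u = 0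
  · -- no element of order two is divisible by two
    exfalso
    obtain ⟨u, hu⟩ : ∃ u : A, u ≠ 0 ∧ u + u = 0 := by
      obtain ⟨u, hu⟩ := exists_prime_addOrderOf_dvd_card (G := A) 2 (even_iff_two_dvd.mp he)
      refine ⟨u, ?_, ?_⟩
      · rintro rfl
        simp at hu
      · rw [← two_nsmul, ← hu]
        exact addOrderOf_nsmul_eq_zero u
    obtain ⟨ψ, hψ⟩ := exists_char_ne hu.1
    have hψ1 : ψ u = -1 := by
      have h1 : ψ u * ψ u = 1 := by
        rw [← AddChar.map_add_eq_mul, hu.2, AddChar.map_zero_eq_one]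
      have h2 : (ψ u - 1) * (ψ u + 1) = 0 := by linear_combination h1
      exact eq_neg_of_add_eq_zero_left ((mul_eq_zero.mp h2).resolve_left (sub_ne_zero.mpr hψ))
    have hneg : -u = u := neg_eq_of_add_eq_zero_left hu.2
    have hfil2 : Finset.univ.filter (fun a : A => a + a = 0 ∧ a + u ∈ dbl A) = {u} := by
      ext a
      rw [Finset.mem_filter, Finset.mem_singleton]
      constructor
      · rintro ⟨-, h1, h2⟩
        have h3 : a + u ∈ tw A := by
          unfold tw
          rw [Finset.mem_filter]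
          refine ⟨Finset.mem_univ _, ?_, mem_dbl.mp h2⟩
          calc a + u + (a + u) = (a + a) + (u + u) := by abel
            _ = 0 := by rw [h1, hu.2, add_zero]
        have h4 := hone _ h3
        rw [eq_neg_of_add_eq_zero_left h4, hneg]
      · rintro rfl
        exact ⟨Finset.mem_univ _, hu.2, by rw [hu.2]; exact zero_mem_dbl⟩
    obtain ⟨r1, hr1⟩ := exists_rank hT hP u ψ
    rw [hfil2, Finset.sum_singleton, hψ1] at hr1
    have hc1 : (tw A).card = 1 := by
      rw [Finset.card_eq_one]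
      refine ⟨0, ?_⟩
      ext a
      rw [Finset.mem_singleton]
      exact ⟨hone a, fun h => h ▸ hz⟩
    have h1 : ((dbl A).card : ℂ) = 4 * r1 + 1 := by linear_combination hr1
    have h1' : (dbl A).card = 4 * r1 + 1 := by exact_mod_cast h1
    omega
  · push Not at hone
    obtain ⟨u, hu, hu0⟩ := hone
    obtain ⟨ψ, hψ⟩ := exists_char_ne hu0
    obtain ⟨r1, hr1⟩ := exists_rank hT hP 0 ψ
    rw [hfil] at hr1
    have h2 : ∑ a ∈ tw A, ψ (a + u) = ∑ a ∈ tw A, ψ a := by
      refine Finset.sum_bij (fun x _ => x + u) ?_ ?_ ?_ ?_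
      · intro x hx
        exact hadd x hx u hu
      · intro x _ y _ hxy
        exact add_right_cancel hxy
      · intro y hy
        refine ⟨y + u, hadd y hy u hu, ?_⟩
        have h3 : u + u = 0 := by
          unfold tw at hu
          exact (Finset.mem_filter.mp hu).2.1
        rw [add_assoc, h3, add_zero]
      · intro x _
        rfl
    have h3 : ψ u * ∑ x ∈ tw A, ψ x = ∑ x ∈ tw A, ψ x := by
      conv_rhs => rw [← h2]
      rw [Finset.mul_sum]
      refine Finset.sum_congr rfl fun x _ => ?_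
      rw [AddChar.map_add_eq_mul, mul_comm]
    have h4 : (ψ u - 1) * ∑ x ∈ tw A, ψ x = 0 := by
      rw [sub_mul, one_mul, h3, sub_self]
    have h5 : ∑ x ∈ tw A, ψ x = 0 := (mul_eq_zero.mp h4).resolve_left (sub_ne_zero.mpr hψ)
    rw [h5, add_zero] at hr1
    have h6 : (dbl A).card = 4 * r1 := by exact_mod_cast hr1
    omega

/-- No parabolic set with the projection identity over a group of even order in which fewer than
four elements `a` satisfy `2 a = 0` and `a ∈ 2 A`. -/
theorem not_even_of_tw {T : Finset (PS A)} (hT : IsPara T) (hP : ProjId T)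
    (h4 : (tw A).card < 4) : ¬ Even (Fintype.card A) := by
  intro he
  have h1 := four_dvd_tw hT hP he
  have hz : (0 : A) ∈ tw A := by
    unfold tw
    rw [Finset.mem_filter]
    exact ⟨Finset.mem_univ _, add_zero _, 0, (add_zero _).symm⟩
  have hpos : 0 < (tw A).card := Finset.card_pos.mpr ⟨0, hz⟩
  have := Nat.le_of_dvd hpos h1
  omega

end Pool.Agent.SicAb
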